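import Mathlib

set_option autoImplicit false

/-!
Elementary symmetric sums and the Bonferroni inequalities for products `∏ (1 - a p)`.
-/

namespace Pool.Agent.Helper73.OmegaSmall

open Finset

/-- elementary symmetric sum of degree `r` -/
noncomputable def ee (Q : Finset ℕ) (a : ℕ → ℝ) (r : ℕ) : ℝ :=
  ∑ S ∈ Q.powersetCard r, ∏ p ∈ S, a p

/-- truncated alternating sum -/
noncomputable def ff (Q : Finset ℕ) (a : ℕ → ℝ) (m : ℕ) : ℝ :=
  ∑ r ∈ range (m + 1), (-1) ^ r * ee Q a r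

/-- the product `∏ (1 - a p)` -/
noncomputable def pp (Q : Finset ℕ) (a : ℕ → ℝ) : ℝ := ∏ p ∈ Q, (1 - a p)

theorem ee_zero (Q : Finset ℕ) (a : ℕ → ℝ) : ee Q a 0 = 1 := by
  unfold ee
  simp

theorem ee_empty_succ (a : ℕ → ℝ) (r : ℕ) : ee ∅ a (r + 1) = 0 := by
  unfold ee
  rw [Finset.powersetCard_eq_empty.2 (by simp), Finset.sum_empty]

theorem ee_insert {Q : Finset ℕ} {q : ℕ} (hq : q ∉ Q) (a : ℕ → ℝ) (r : ℕ) :
    ee (insert q Q) a (r + 1) = ee Q a (r + 1) + a q * ee Q a r := by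
  unfold ee
  rw [Finset.powersetCard_succ_insert hq]
  have hnot : ∀ S ∈ Q.powersetCard r, q ∉ S := fun S hS h =>
    hq ((Finset.mem_powersetCard.1 hS).1 h)
  have hdis : Disjoint (Q.powersetCard (r + 1)) ((Q.powersetCard r).image (insert q)) := by
    rw [Finset.disjoint_left]
    intro S hS hS2
    obtain ⟨T, _, rfl⟩ := Finset.mem_image.1 hS2
    exact hq ((Finset.mem_powersetCard.1 hS).1 (mem_insert_self _ _))
  rw [Finset.sum_union hdis, Finset.sum_image, Finset.mul_sum]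
  · congr 1
    refine Finset.sum_congr rfl fun S hS => ?_
    rw [Finset.prod_insert (hnot S hS)]
  · intro S hS T hT hST
    have h1 := Finset.erase_insert (hnot S hS)
    have h2 := Finset.erase_insert (hnot T hT)
    have h3 : insert q S = insert q T := hST
    rw [h3, h2] at h1
    exact h1.symm

theorem ff_zero (Q : Finset ℕ) (a : ℕ → ℝ) : ff Q a 0 = 1 := by
  unfold ff
  simp [ee_zero]

theorem ff_succ (Q : Finset ℕ) (a : ℕ → ℝ) (m : ℕ) :
    ff Q a (m + 1) = ff Q a m + (-1) ^ (m + 1) * ee Q a (m + 1) := by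
  unfold ff
  rw [Finset.sum_range_succ]

theorem ff_insert {Q : Finset ℕ} {q : ℕ} (hq : q ∉ Q) (a : ℕ → ℝ) (m : ℕ) :
    ff (insert q Q) a (m + 1) = ff Q a (m + 1) - a q * ff Q a m := by
  unfold ff
  rw [Finset.sum_range_succ' (fun r => (-1 : ℝ) ^ r * ee (insert q Q) a r),
    Finset.sum_range_succ' (fun r => (-1 : ℝ) ^ r * ee Q a r) (m + 1), ee_zero, ee_zero,
    Finset.mul_sum]
  have h1 : ∑ r ∈ range (m + 1), (-1 : ℝ) ^ (r + 1) * ee (insert q Q) a (r + 1) =
      ∑ r ∈ range (m + 1), (-1 : ℝ) ^ (r + 1) * ee Q a (r + 1) -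
        ∑ r ∈ range (m + 1), a q * ((-1) ^ r * ee Q a r) := by
    rw [← Finset.sum_sub_distrib]
    refine Finset.sum_congr rfl fun r _ => ?_
    rw [ee_insert hq]
    ring
  rw [h1]
  ring

theorem pp_nonneg {Q : Finset ℕ} {a : ℕ → ℝ} (h1 : ∀ p ∈ Q, a p ≤ 1) : 0 ≤ pp Q a :=
  Finset.prod_nonneg fun p hp => by linarith [h1 p hp]

theorem pp_le_one {Q : Finset ℕ} {a : ℕ → ℝ} (h0 : ∀ p ∈ Q, 0 ≤ a p) (h1 : ∀ p ∈ Q, a p ≤ 1) :
    pp Q a ≤ 1 :=
  Finset.prod_le_one (fun p hp => by linarith [h1 p hp]) fun p hp => by linarith [h0 p hp]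

/-- **Bonferroni.** -/
theorem bonf (Q : Finset ℕ) (a : ℕ → ℝ) (h0 : ∀ p ∈ Q, 0 ≤ a p) (h1 : ∀ p ∈ Q, a p ≤ 1) :
    ∀ b : ℕ, pp Q a ≤ ff Q a (2 * b) ∧ ff Q a (2 * b + 1) ≤ pp Q a := by
  induction Q using Finset.induction_on with
  | empty =>
    have h : ∀ m, ff ∅ a m = 1 := by
      intro m
      induction m with
      | zero => exact ff_zero _ _
      | succ m ih => rw [ff_succ, ih, ee_empty_succ]; ring
    intro b
    rw [h, h]
    unfold pp
    simp
  | insert q Q hq ih =>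
    have ih' := ih (fun p hp => h0 p (mem_insert_of_mem hp))
      (fun p hp => h1 p (mem_insert_of_mem hp))
    have hq0 := h0 q (mem_insert_self _ _)
    have hq1 := h1 q (mem_insert_self _ _)
    have hpp : pp (insert q Q) a = (1 - a q) * pp Q a := by
      unfold pp
      rw [Finset.prod_insert hq]
    intro b
    constructor
    · rcases Nat.eq_zero_or_pos b with rfl | hb
      · rw [Nat.mul_zero, ff_zero]
        exact pp_le_one h0 h1
      · obtain ⟨c, rfl⟩ := Nat.exists_eq_add_of_le' hb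
        have h2 : 2 * (c + 1) = (2 * c + 1) + 1 := by ring
        rw [h2, ff_insert hq, hpp]
        have h3 := (ih' (c + 1)).1
        have h4 := (ih' c).2
        rw [h2] at h3
        nlinarith
    · rw [ff_insert hq, hpp]
      have h3 := (ih' b).2
      have h4 := (ih' b).1
      nlinarith

theorem ff_even_le (Q : Finset ℕ) (a : ℕ → ℝ) (h0 : ∀ p ∈ Q, 0 ≤ a p) (h1 : ∀ p ∈ Q, a p ≤ 1)
    (b : ℕ) : ff Q a (2 * b) ≤ pp Q a + ee Q a (2 * b) := by
  rcases Nat.eq_zero_or_pos b with rfl | hb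
  · rw [Nat.mul_zero, ff_zero, ee_zero]
    linarith [pp_nonneg h1]
  · obtain ⟨c, rfl⟩ := Nat.exists_eq_add_of_le' hb
    have h2 : 2 * (c + 1) = (2 * c + 1) + 1 := by ring
    have h3 := (bonf Q a h0 h1 c).2
    rw [h2, ff_succ]
    have h4 : (-1 : ℝ) ^ (2 * c + 1 + 1) = 1 := by
      rw [show 2 * c + 1 + 1 = 2 * (c + 1) by ring, pow_mul]
      simp
    rw [h4]
    linarith

theorem ee_nonneg {Q : Finset ℕ} {a : ℕ → ℝ} (h0 : ∀ p ∈ Q, 0 ≤ a p) (r : ℕ) :
    0 ≤ ee Q a r :=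
  Finset.sum_nonneg fun S hS => Finset.prod_nonneg fun p hp =>
    h0 p ((Finset.mem_powersetCard.1 hS).1 hp)

theorem ee_mono {Q' Q : Finset ℕ} (hQ : Q' ⊆ Q) {a : ℕ → ℝ} (h0 : ∀ p ∈ Q, 0 ≤ a p) (r : ℕ) :
    ee Q' a r ≤ ee Q a r :=
  Finset.sum_le_sum_of_subset_of_nonneg (Finset.powersetCard_mono hQ) fun S hS _ =>
    Finset.prod_nonneg fun p hp => h0 p ((Finset.mem_powersetCard.1 hS).1 hp)

theorem ee_le (Q : Finset ℕ) (a : ℕ → ℝ) (h0 : ∀ p ∈ Q, 0 ≤ a p) :
    ∀ r : ℕ, ee Q a r ≤ (∑ p ∈ Q, a p) ^ r / (r.factorial : ℝ) := by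
  induction Q using Finset.induction_on with
  | empty =>
    intro r
    rcases Nat.eq_zero_or_pos r with rfl | hr
    · rw [ee_zero]; simp
    · obtain ⟨s, rfl⟩ := Nat.exists_eq_add_of_le' hr
      rw [ee_empty_succ, Finset.sum_empty]
      positivity
  | insert q Q hq ih =>
    have ih' := ih (fun p hp => h0 p (mem_insert_of_mem hp))
    have hq0 := h0 q (mem_insert_self _ _)
    have hs0 : 0 ≤ ∑ p ∈ Q, a p := Finset.sum_nonneg fun p hp => h0 p (mem_insert_of_mem hp)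
    intro r
    rcases Nat.eq_zero_or_pos r with rfl | hr
    · rw [ee_zero]; simp
    · obtain ⟨s, rfl⟩ := Nat.exists_eq_add_of_le' hr
      rw [ee_insert hq, Finset.sum_insert hq]
      set σ := ∑ p ∈ Q, a p with hσ
      have h1 := ih' (s + 1)
      have h2 := ih' s
      have hf : (0 : ℝ) < (s + 1).factorial := by exact_mod_cast Nat.factorial_pos _
      have hf' : (0 : ℝ) < s.factorial := by exact_mod_cast Nat.factorial_pos _
      have h3 : a q * ee Q a s ≤ a q * (σ ^ s / (s.factorial : ℝ)) :=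
        mul_le_mul_of_nonneg_left h2 hq0
      have h4 : a q * (σ ^ s / (s.factorial : ℝ)) =
          (s + 1) * a q * σ ^ s / ((s + 1).factorial : ℝ) := by
        rw [Nat.factorial_succ]
        push_cast
        field_simp
      -- Bernoulli type inequality
      have h5 : σ ^ (s + 1) + (s + 1) * a q * σ ^ s ≤ (a q + σ) ^ (s + 1) := by
        clear h1 h2 h3 h4 ih ih'
        induction s with
        | zero => simp; linarith
        | succ s ih =>
          have hf : (0 : ℝ) < (s + 1).factorial := by exact_mod_cast Nat.factorial_pos _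
          have hf' : (0 : ℝ) < s.factorial := by exact_mod_cast Nat.factorial_pos _
          have h6 := ih (by omega) hf hf'
          have h7 : (a q + σ) ^ (s + 1 + 1) = (a q + σ) * (a q + σ) ^ (s + 1) := by ring
          rw [h7]
          have h8 : 0 ≤ a q + σ := by linarith
          have h9 : (a q + σ) * (σ ^ (s + 1) + (s + 1) * a q * σ ^ s) ≤
              (a q + σ) * (a q + σ) ^ (s + 1) := mul_le_mul_of_nonneg_left h6 h8
          refine le_trans ?_ h9
          have h10 : (a q + σ) * (σ ^ (s + 1) + (s + 1) * a q * σ ^ s) =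
              σ ^ (s + 1 + 1) + ((s : ℝ) + 1 + 1) * a q * σ ^ (s + 1) +
                (s + 1) * (a q) ^ 2 * σ ^ s := by ring
          rw [h10]
          push_cast
          have h11 : 0 ≤ ((s : ℝ) + 1) * (a q) ^ 2 * σ ^ s := by positivity
          linarith
      calc ee Q a (s + 1) + a q * ee Q a s
          ≤ σ ^ (s + 1) / ((s + 1).factorial : ℝ) +
            (s + 1) * a q * σ ^ s / ((s + 1).factorial : ℝ) := by
            rw [← h4]
            exact add_le_add h1 h3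
        _ = (σ ^ (s + 1) + (s + 1) * a q * σ ^ s) / ((s + 1).factorial : ℝ) := by ring
        _ ≤ (a q + σ) ^ (s + 1) / ((s + 1).factorial : ℝ) :=
            div_le_div_of_nonneg_right h5 hf.le

/-- the index set of `ff` -/
def fam (Q : Finset ℕ) (m : ℕ) : Finset (Finset ℕ) :=
  (range (m + 1)).biUnion fun r => Q.powersetCard r

theorem mem_fam {Q : Finset ℕ} {m : ℕ} {S : Finset ℕ} :
    S ∈ fam Q m ↔ S ⊆ Q ∧ S.card ≤ m := by
  unfold fam
  rw [Finset.mem_biUnion]
  constructor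
  · rintro ⟨r, hr, hS⟩
    rw [Finset.mem_powersetCard] at hS
    rw [Finset.mem_range] at hr
    exact ⟨hS.1, by omega⟩
  · rintro ⟨h1, h2⟩
    exact ⟨S.card, Finset.mem_range.2 (by omega), Finset.mem_powersetCard.2 ⟨h1, rfl⟩⟩

theorem sum_fam (Q : Finset ℕ) (m : ℕ) (F : Finset ℕ → ℝ) :
    ∑ S ∈ fam Q m, F S = ∑ r ∈ range (m + 1), ∑ S ∈ Q.powersetCard r, F S := by
  unfold fam
  rw [Finset.sum_biUnion]
  intro r _ s _ hrs
  exact Finset.pairwise_disjoint_powersetCard Q hrs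

theorem ff_eq_fam (Q : Finset ℕ) (a : ℕ → ℝ) (m : ℕ) :
    ff Q a m = ∑ S ∈ fam Q m, (-1) ^ S.card * ∏ p ∈ S, a p := by
  rw [sum_fam]
  unfold ff ee
  refine Finset.sum_congr rfl fun r _ => ?_
  rw [Finset.mul_sum]
  refine Finset.sum_congr rfl fun S hS => ?_
  rw [(Finset.mem_powersetCard.1 hS).2]

theorem sum_fam_le (Q : Finset ℕ) (m : ℕ) (κ : ℕ → ℝ) (h0 : ∀ p ∈ Q, 0 ≤ κ p) :
    ∑ S ∈ fam Q m, ∏ p ∈ S, κ p ≤ (1 + ∑ p ∈ Q, κ p) ^ m := by
  rw [sum_fam]
  set σ := ∑ p ∈ Q, κ p with hσ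
  have hσ0 : 0 ≤ σ := Finset.sum_nonneg h0
  rw [add_comm 1 σ, add_pow]
  refine Finset.sum_le_sum fun r hr => ?_
  rw [Finset.mem_range] at hr
  have h1 : ∑ S ∈ Q.powersetCard r, ∏ p ∈ S, κ p ≤ σ ^ r / (r.factorial : ℝ) := ee_le Q κ h0 r
  have h2 : σ ^ r / (r.factorial : ℝ) ≤ σ ^ r := by
    refine div_le_self (by positivity) ?_
    exact_mod_cast Nat.factorial_pos r
  have h3 : (1 : ℝ) ≤ (m.choose r : ℝ) := by
    exact_mod_cast Nat.choose_pos (by omega)
  calc ∑ S ∈ Q.powersetCard r, ∏ p ∈ S, κ p ≤ σ ^ r := h1.trans h2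
    _ = σ ^ r * 1 ^ (m - r) * 1 := by ring
    _ ≤ σ ^ r * 1 ^ (m - r) * (m.choose r : ℝ) :=
        mul_le_mul_of_nonneg_left h3 (by positivity)

theorem prod_tel {ι : Type*} [DecidableEq ι] (s : Finset ι) (x y : ι → ℝ)
    (h0 : ∀ i ∈ s, 0 ≤ x i) (h1 : ∀ i ∈ s, x i ≤ y i) :
    ∏ i ∈ s, y i - ∑ i ∈ s, (y i - x i) * ∏ j ∈ s.erase i, y j ≤ ∏ i ∈ s, x i := by
  induction s using Finset.induction_on with
  | empty => simp
  | insert k s hk ih =>
    have ih' := ih (fun i hi => h0 i (mem_insert_of_mem hi))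
      (fun i hi => h1 i (mem_insert_of_mem hi))
    have hk0 := h0 k (mem_insert_self _ _)
    have hk1 := h1 k (mem_insert_self _ _)
    rw [Finset.prod_insert hk, Finset.prod_insert hk, Finset.sum_insert hk,
      Finset.erase_insert hk]
    have h2 : ∑ i ∈ s, (y i - x i) * ∏ j ∈ (insert k s).erase i, y j =
        y k * ∑ i ∈ s, (y i - x i) * ∏ j ∈ s.erase i, y j := by
      rw [Finset.mul_sum]
      refine Finset.sum_congr rfl fun i hi => ?_
      have hik : k ≠ i := fun h => hk (h ▸ hi)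
      rw [Finset.erase_insert_of_ne hik, Finset.prod_insert]
      · ring
      · intro h
        exact hk (Finset.mem_of_mem_erase h)
    rw [h2]
    have hy : ∀ i ∈ s, 0 ≤ y i := fun i hi =>
      (h0 i (mem_insert_of_mem hi)).trans (h1 i (mem_insert_of_mem hi))
    have h3 : 0 ≤ ∑ i ∈ s, (y i - x i) * ∏ j ∈ s.erase i, y j :=
      Finset.sum_nonneg fun i hi => mul_nonneg
        (by linarith [h1 i (mem_insert_of_mem hi)])
        (Finset.prod_nonneg fun j hj => hy j (Finset.mem_of_mem_erase hj))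
    set Y := ∏ i ∈ s, y i
    set X := ∏ i ∈ s, x i
    set U := ∑ i ∈ s, (y i - x i) * ∏ j ∈ s.erase i, y j
    have h4 : x k * (Y - U) ≤ x k * X := mul_le_mul_of_nonneg_left ih' hk0
    have h5 : x k * U ≤ y k * U := mul_le_mul_of_nonneg_right hk1 h3
    linarith

end Pool.Agent.Helper73.OmegaSmall
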