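import Mathlib
import Pool.Agent.Helper73.OmegaShift.Avg
import Pool.Agent.Helper73.OmegaSmall.Sym

set_option autoImplicit false

/-!
The Brun-Hooley sieve for a family of blocks of primes, over an interval, with a periodic weight.
-/

namespace Pool.Agent.Helper73.OmegaSmall

open Finset
open Pool.Agent.Helper73.OmegaShift (crt_prod avg_prod)

/-- number of hits in a period -/
noncomputable def kap (w : ℕ → ℕ → ℝ) (p : ℕ) : ℝ := ∑ n ∈ range p, w p n

/-- density of hits -/
noncomputable def den (w : ℕ → ℕ → ℝ) (p : ℕ) : ℝ := kap w p / p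

/-- data of the sieve -/
structure Dat {ι : Type} [Fintype ι] [DecidableEq ι] (P : ι → Finset ℕ) (v : ι → ℕ → ℕ → ℝ)
    (g : ℕ → ℝ) (q : ℕ) : Prop where
  prime : ∀ i, ∀ p ∈ P i, p.Prime
  disj : ∀ i j, i ≠ j → Disjoint (P i) (P j)
  v01 : ∀ i p n, v i p n = 0 ∨ v i p n = 1
  per : ∀ i p, Function.Periodic (v i p) p
  qpos : 0 < q
  gper : Function.Periodic g q
  gnonneg : ∀ n, 0 ≤ g n
  cop : ∀ i, ∀ p ∈ P i, q.Coprime p

section

variable {ι : Type} [Fintype ι] [DecidableEq ι] {P : ι → Finset ℕ} {v : ι → ℕ → ℕ → ℝ}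
  {g : ℕ → ℝ} {q : ℕ}

theorem Dat.v_nonneg (D : Dat P v g q) (i : ι) (p n : ℕ) : 0 ≤ v i p n := by
  rcases D.v01 i p n with h | h <;> rw [h]
  exact zero_le_one

theorem Dat.v_le_one (D : Dat P v g q) (i : ι) (p n : ℕ) : v i p n ≤ 1 := by
  rcases D.v01 i p n with h | h <;> rw [h]
  exact zero_le_one

theorem Dat.kap_nonneg (D : Dat P v g q) (i : ι) (p : ℕ) : 0 ≤ kap (v i) p :=
  Finset.sum_nonneg fun n _ => D.v_nonneg i p n

theorem Dat.den_nonneg (D : Dat P v g q) (i : ι) (p : ℕ) : 0 ≤ den (v i) p :=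
  div_nonneg (D.kap_nonneg i p) (Nat.cast_nonneg _)

theorem Dat.den_le_one (D : Dat P v g q) (i : ι) (p : ℕ) : den (v i) p ≤ 1 := by
  unfold den kap
  rcases Nat.eq_zero_or_pos p with rfl | hp
  · simp
  · have hp' : (0 : ℝ) < p := by exact_mod_cast hp
    rw [div_le_one hp']
    calc ∑ n ∈ range p, v i p n ≤ ∑ n ∈ range p, (1 : ℝ) :=
          Finset.sum_le_sum fun n _ => D.v_le_one i p n
      _ = p := by simp

/-- changing the weight and the blocks -/
theorem Dat.shrink (D : Dat P v g q) (R : Finset ℕ) (g' : ℕ → ℝ) (q' : ℕ) (hq' : 0 < q')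
    (hper : Function.Periodic g' q') (h0 : ∀ n, 0 ≤ g' n)
    (hcop : ∀ i, ∀ p ∈ P i \ R, q'.Coprime p) : Dat (fun i => P i \ R) v g' q' where
  prime i p hp := D.prime i p (Finset.mem_sdiff.1 hp).1
  disj i j hij := (D.disj i j hij).mono Finset.sdiff_subset Finset.sdiff_subset
  v01 := D.v01
  per := D.per
  qpos := hq'
  gper := hper
  gnonneg := h0
  cop := hcop

/-- averages of products of block sums -/
theorem Dat.avg (D : Dat P v g q) (A : ι → Finset (Finset ℕ)) (hA : ∀ i, ∀ S ∈ A i, S ⊆ P i)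
    (c : ι → Finset ℕ → ℝ) (x H : ℕ) :
    |∑ n ∈ Ico x (x + H), g n * ∏ i, ∑ S ∈ A i, c i S * ∏ p ∈ S, v i p n -
      H * ((∑ n ∈ range q, g n) / q * ∏ i, ∑ S ∈ A i, c i S * ∏ p ∈ S, den (v i) p)| ≤
      (∑ n ∈ range q, g n) * ∏ i, ∑ S ∈ A i, |c i S| * ∏ p ∈ S, kap (v i) p := by
  have hcrt : ∀ i, ∀ S ∈ A i, Function.Periodic (fun n => ∏ p ∈ S, v i p n) (∏ p ∈ S, p) ∧
      ∑ n ∈ range (∏ p ∈ S, p), ∏ p ∈ S, v i p n = ∏ p ∈ S, kap (v i) p := by
    intro i S hS
    have hSP := hA i S hS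
    exact crt_prod S (fun p => p) (fun p => v i p) (fun p hp => (D.prime i p (hSP hp)).pos)
      (fun p hp r hr hpr => (Nat.coprime_primes (D.prime i p (hSP hp))
        (D.prime i r (hSP hr))).2 hpr) (fun p _ => D.per i p)
  have h := avg_prod (ι := Option ι) (α := Finset ℕ)
    (fun o => match o with | none => {∅} | some i => A i)
    (fun o S => match o with | none => 1 | some i => c i S)
    (fun o S n => match o with | none => g n | some i => ∏ p ∈ S, v i p n)
    (fun o S => match o with | none => q | some _ => ∏ p ∈ S, p) ?_ ?_ ?_ ?_ x H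
  · simp only [Fintype.prod_option, Finset.sum_singleton, one_mul, abs_one] at h
    have e2 : ∀ i, ∑ S ∈ A i, c i S * ((∑ n ∈ range (∏ p ∈ S, p), ∏ p ∈ S, v i p n) /
        ((∏ p ∈ S, p : ℕ) : ℝ)) = ∑ S ∈ A i, c i S * ∏ p ∈ S, den (v i) p := by
      intro i
      refine Finset.sum_congr rfl fun S hS => ?_
      rw [(hcrt i S hS).2]
      push_cast
      rw [← Finset.prod_div_distrib]
      rfl
    have e3 : ∀ i, ∑ S ∈ A i, |c i S| * ∑ n ∈ range (∏ p ∈ S, p), ∏ p ∈ S, v i p n =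
        ∑ S ∈ A i, |c i S| * ∏ p ∈ S, kap (v i) p := by
      intro i
      refine Finset.sum_congr rfl fun S hS => ?_
      rw [(hcrt i S hS).2]
    rw [Finset.prod_congr rfl fun i _ => e2 i, Finset.prod_congr rfl fun i _ => e3 i] at h
    exact h
  · intro o S hS
    match o with
    | none => exact D.qpos
    | some i => exact Finset.prod_pos fun p hp => (D.prime i p (hA i S hS hp)).pos
  · intro o o' hoo S hS T hT
    match o, o' with
    | none, none => exact absurd rfl hoo
    | none, some j =>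
      exact Nat.Coprime.prod_right fun p hp => D.cop j p (hA j T hT hp)
    | some i, none =>
      exact (Nat.Coprime.prod_right fun p hp => D.cop i p (hA i S hS hp)).symm
    | some i, some j =>
      have hij : i ≠ j := fun h => hoo (by rw [h])
      refine Nat.Coprime.prod_left fun p hp => Nat.Coprime.prod_right fun r hr => ?_
      have hp1 := hA i S hS hp
      have hr1 := hA j T hT hr
      refine (Nat.coprime_primes (D.prime i p hp1) (D.prime j r hr1)).2 fun hpr => ?_
      exact (Finset.disjoint_left.1 (D.disj i j hij)) hp1 (hpr ▸ hr1)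
  · intro o S hS
    match o with
    | none => exact D.gper
    | some i => exact (hcrt i S hS).1
  · intro o S n
    match o with
    | none => exact D.gnonneg n
    | some i => exact Finset.prod_nonneg fun p _ => D.v_nonneg i p n

/-- indicator of the sifted integers -/
noncomputable def sif (P : ι → Finset ℕ) (v : ι → ℕ → ℕ → ℝ) (n : ℕ) : ℝ :=
  ∏ i, pp (P i) fun p => v i p n

theorem Dat.sif_le (D : Dat P v g q) (b : ι → ℕ) (n : ℕ) :
    sif P v n ≤ ∏ i, ff (P i) (fun p => v i p n) (2 * b i) :=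
  Finset.prod_le_prod (fun i _ => pp_nonneg fun p _ => D.v_le_one i p n)
    fun i _ => (bonf (P i) (fun p => v i p n) (fun p _ => D.v_nonneg i p n)
      (fun p _ => D.v_le_one i p n) (b i)).1

theorem Dat.sif_ge (D : Dat P v g q) (b : ι → ℕ) (n : ℕ) :
    ∏ i, ff (P i) (fun p => v i p n) (2 * b i) -
      ∑ i, ee (P i) (fun p => v i p n) (2 * b i) *
        ∏ j ∈ univ.erase i, ff (P j) (fun p => v j p n) (2 * b j) ≤ sif P v n := by
  have h := prod_tel (univ : Finset ι) (fun i => pp (P i) fun p => v i p n)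
    (fun i => ff (P i) (fun p => v i p n) (2 * b i))
    (fun i _ => pp_nonneg fun p _ => D.v_le_one i p n)
    fun i _ => (bonf (P i) (fun p => v i p n) (fun p _ => D.v_nonneg i p n)
      (fun p _ => D.v_le_one i p n) (b i)).1
  refine le_trans (sub_le_sub_left (Finset.sum_le_sum fun i _ => ?_) _) h
  refine mul_le_mul_of_nonneg_right ?_ (Finset.prod_nonneg fun j _ =>
    (pp_nonneg fun p _ => D.v_le_one j p n).trans (bonf (P j) (fun p => v j p n)
      (fun p _ => D.v_nonneg j p n) (fun p _ => D.v_le_one j p n) (b j)).1)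
  have := ff_even_le (P i) (fun p => v i p n) (fun p _ => D.v_nonneg i p n)
      (fun p _ => D.v_le_one i p n) (b i)
  linarith

/-- the error term -/
noncomputable def err (P : ι → Finset ℕ) (v : ι → ℕ → ℕ → ℝ) (b : ι → ℕ) : ℝ :=
  ∏ i, (1 + ∑ p ∈ P i, kap (v i) p) ^ (2 * b i)

theorem Dat.err_nonneg (D : Dat P v g q) (b : ι → ℕ) : 0 ≤ err P v b :=
  Finset.prod_nonneg fun i _ => pow_nonneg
    (by have := Finset.sum_nonneg fun p (_ : p ∈ P i) => D.kap_nonneg i p; linarith) _

theorem Dat.upper (D : Dat P v g q) (b : ι → ℕ) (x H : ℕ) :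
    ∑ n ∈ Ico x (x + H), g n * sif P v n ≤
      H * ((∑ n ∈ range q, g n) / q * ∏ i, ff (P i) (den (v i)) (2 * b i)) +
      (∑ n ∈ range q, g n) * err P v b := by
  have hG : 0 ≤ ∑ n ∈ range q, g n := Finset.sum_nonneg fun n _ => D.gnonneg n
  have h1 := D.avg (fun i => fam (P i) (2 * b i)) (fun i S hS => (mem_fam.1 hS).1)
    (fun _ S => (-1) ^ S.card) x H
  have e1 : ∀ n, ∏ i, ∑ S ∈ fam (P i) (2 * b i), (-1 : ℝ) ^ S.card * ∏ p ∈ S, v i p n =
      ∏ i, ff (P i) (fun p => v i p n) (2 * b i) := fun n =>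
    Finset.prod_congr rfl fun i _ => (ff_eq_fam _ _ _).symm
  have e2 : ∏ i, ∑ S ∈ fam (P i) (2 * b i), (-1 : ℝ) ^ S.card * ∏ p ∈ S, den (v i) p =
      ∏ i, ff (P i) (den (v i)) (2 * b i) :=
    Finset.prod_congr rfl fun i _ => (ff_eq_fam _ _ _).symm
  have e3 : ∏ i, ∑ S ∈ fam (P i) (2 * b i), |(-1 : ℝ) ^ S.card| * ∏ p ∈ S, kap (v i) p ≤
      err P v b := by
    refine Finset.prod_le_prod (fun i _ => Finset.sum_nonneg fun S _ => mul_nonneg (abs_nonneg _)
      (Finset.prod_nonneg fun p _ => D.kap_nonneg i p)) fun i _ => ?_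
    have h2 : ∀ S : Finset ℕ, |(-1 : ℝ) ^ S.card| * ∏ p ∈ S, kap (v i) p =
        ∏ p ∈ S, kap (v i) p := by
      intro S
      rw [abs_pow, abs_neg, abs_one, one_pow, one_mul]
    rw [Finset.sum_congr rfl fun S _ => h2 S]
    exact sum_fam_le (P i) (2 * b i) _ fun p _ => D.kap_nonneg i p
  have h3 : ∑ n ∈ Ico x (x + H), g n * sif P v n ≤
      ∑ n ∈ Ico x (x + H), g n * ∏ i, ff (P i) (fun p => v i p n) (2 * b i) :=
    Finset.sum_le_sum fun n _ => mul_le_mul_of_nonneg_left (D.sif_le b n) (D.gnonneg n)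
  simp_rw [e1] at h1
  rw [e2] at h1
  have h4 := (abs_le.1 h1).2
  have h5 := mul_le_mul_of_nonneg_left e3 hG
  linarith

theorem Dat.lower (D : Dat P v g q) (b : ι → ℕ) (x H : ℕ) :
    H * ((∑ n ∈ range q, g n) / q * (∏ i, ff (P i) (den (v i)) (2 * b i) -
      ∑ i, ee (P i) (den (v i)) (2 * b i) *
        ∏ j ∈ univ.erase i, ff (P j) (den (v j)) (2 * b j))) -
      (Fintype.card ι + 1) * ((∑ n ∈ range q, g n) * err P v b) ≤
      ∑ n ∈ Ico x (x + H), g n * sif P v n := by
  have hG : 0 ≤ ∑ n ∈ range q, g n := Finset.sum_nonneg fun n _ => D.gnonneg n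
  -- the main product
  have h1 := D.avg (fun i => fam (P i) (2 * b i)) (fun i S hS => (mem_fam.1 hS).1)
    (fun _ S => (-1) ^ S.card) x H
  have e1 : ∀ n, ∏ i, ∑ S ∈ fam (P i) (2 * b i), (-1 : ℝ) ^ S.card * ∏ p ∈ S, v i p n =
      ∏ i, ff (P i) (fun p => v i p n) (2 * b i) := fun n =>
    Finset.prod_congr rfl fun i _ => (ff_eq_fam _ _ _).symm
  have e2 : ∏ i, ∑ S ∈ fam (P i) (2 * b i), (-1 : ℝ) ^ S.card * ∏ p ∈ S, den (v i) p =
      ∏ i, ff (P i) (den (v i)) (2 * b i) :=
    Finset.prod_congr rfl fun i _ => (ff_eq_fam _ _ _).symm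
  have habs : ∀ S : Finset ℕ, |(-1 : ℝ) ^ S.card| = 1 := by
    intro S
    rw [abs_pow, abs_neg, abs_one, one_pow]
  have hfam : ∀ i, ∑ S ∈ fam (P i) (2 * b i), |(-1 : ℝ) ^ S.card| * ∏ p ∈ S, kap (v i) p ≤
      (1 + ∑ p ∈ P i, kap (v i) p) ^ (2 * b i) := by
    intro i
    rw [Finset.sum_congr rfl fun S _ => by rw [habs S, one_mul]]
    exact sum_fam_le (P i) (2 * b i) _ fun p _ => D.kap_nonneg i p
  have hfam0 : ∀ i, 0 ≤ ∑ S ∈ fam (P i) (2 * b i), |(-1 : ℝ) ^ S.card| *
      ∏ p ∈ S, kap (v i) p := fun i => Finset.sum_nonneg fun S _ => mul_nonneg (abs_nonneg _)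
      (Finset.prod_nonneg fun p _ => D.kap_nonneg i p)
  have e3 : ∏ i, ∑ S ∈ fam (P i) (2 * b i), |(-1 : ℝ) ^ S.card| * ∏ p ∈ S, kap (v i) p ≤
      err P v b := Finset.prod_le_prod (fun i _ => hfam0 i) fun i _ => hfam i
  simp_rw [e1] at h1
  rw [e2] at h1
  -- the terms with one elementary symmetric sum
  have h2 : ∀ i : ι, |∑ n ∈ Ico x (x + H), g n * (ee (P i) (fun p => v i p n) (2 * b i) *
        ∏ j ∈ univ.erase i, ff (P j) (fun p => v j p n) (2 * b j)) -
      H * ((∑ n ∈ range q, g n) / q * (ee (P i) (den (v i)) (2 * b i) *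
        ∏ j ∈ univ.erase i, ff (P j) (den (v j)) (2 * b j)))| ≤
      (∑ n ∈ range q, g n) * err P v b := by
    intro i
    have h3 := D.avg (fun j => if j = i then (P j).powersetCard (2 * b j) else
        fam (P j) (2 * b j)) (fun j S hS => by
          by_cases hj : j = i
          · rw [if_pos hj] at hS
            exact (Finset.mem_powersetCard.1 hS).1
          · rw [if_neg hj] at hS
            exact (mem_fam.1 hS).1)
      (fun j S => if j = i then 1 else (-1) ^ S.card) x H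
    have k1 : ∀ a : ι → ℕ → ℝ, ∏ j, ∑ S ∈ (if j = i then (P j).powersetCard (2 * b j) else
        fam (P j) (2 * b j)), (if j = i then 1 else (-1 : ℝ) ^ S.card) * ∏ p ∈ S, a j p =
        ee (P i) (a i) (2 * b i) * ∏ j ∈ univ.erase i, ff (P j) (a j) (2 * b j) := by
      intro a
      rw [← Finset.mul_prod_erase univ _ (Finset.mem_univ i)]
      congr 1
      · rw [if_pos rfl]
        unfold ee
        refine Finset.sum_congr rfl fun S _ => ?_
        rw [if_pos rfl, one_mul]
      · refine Finset.prod_congr rfl fun j hj => ?_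
        have hji : j ≠ i := (Finset.mem_erase.1 hj).1
        rw [if_neg hji, ff_eq_fam]
        refine Finset.sum_congr rfl fun S _ => ?_
        rw [if_neg hji]
    have k2 : ∏ j, ∑ S ∈ (if j = i then (P j).powersetCard (2 * b j) else
        fam (P j) (2 * b j)), |if j = i then 1 else (-1 : ℝ) ^ S.card| *
          ∏ p ∈ S, kap (v j) p ≤ err P v b := by
      refine Finset.prod_le_prod (fun j _ => Finset.sum_nonneg fun S _ => mul_nonneg
        (abs_nonneg _) (Finset.prod_nonneg fun p _ => D.kap_nonneg j p)) fun j _ => ?_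
      by_cases hj : j = i
      · rw [if_pos hj]
        have k3 : (P j).powersetCard (2 * b j) ⊆ fam (P j) (2 * b j) := by
          intro S hS
          rw [Finset.mem_powersetCard] at hS
          exact mem_fam.2 ⟨hS.1, hS.2.le⟩
        calc ∑ S ∈ (P j).powersetCard (2 * b j), |if j = i then 1 else (-1 : ℝ) ^ S.card| *
              ∏ p ∈ S, kap (v j) p
            = ∑ S ∈ (P j).powersetCard (2 * b j), ∏ p ∈ S, kap (v j) p := by
              refine Finset.sum_congr rfl fun S _ => ?_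
              rw [if_pos hj, abs_one, one_mul]
          _ ≤ ∑ S ∈ fam (P j) (2 * b j), ∏ p ∈ S, kap (v j) p :=
              Finset.sum_le_sum_of_subset_of_nonneg k3 fun S _ _ =>
                Finset.prod_nonneg fun p _ => D.kap_nonneg j p
          _ ≤ _ := sum_fam_le (P j) (2 * b j) _ fun p _ => D.kap_nonneg j p
      · rw [if_neg hj]
        calc ∑ S ∈ fam (P j) (2 * b j), |if j = i then 1 else (-1 : ℝ) ^ S.card| *
              ∏ p ∈ S, kap (v j) p
            = ∑ S ∈ fam (P j) (2 * b j), |(-1 : ℝ) ^ S.card| * ∏ p ∈ S, kap (v j) p := by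
              refine Finset.sum_congr rfl fun S _ => ?_
              rw [if_neg hj]
          _ ≤ _ := hfam j
    have k5 := k1 fun j => den (v j)
    have k4 : ∀ n, ∏ j, ∑ S ∈ (if j = i then (P j).powersetCard (2 * b j) else
        fam (P j) (2 * b j)), (if j = i then 1 else (-1 : ℝ) ^ S.card) * ∏ p ∈ S, v j p n =
        ee (P i) (fun p => v i p n) (2 * b i) *
          ∏ j ∈ univ.erase i, ff (P j) (fun p => v j p n) (2 * b j) := fun n =>
      k1 fun j p => v j p n
    rw [← k5]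
    refine le_trans (le_of_eq ?_) (h3.trans (mul_le_mul_of_nonneg_left k2 hG))
    congr 2
    exact Finset.sum_congr rfl fun n _ => by rw [← k4 n]
  have h5 : ∑ n ∈ Ico x (x + H), g n * (∏ i, ff (P i) (fun p => v i p n) (2 * b i) -
      ∑ i, ee (P i) (fun p => v i p n) (2 * b i) *
        ∏ j ∈ univ.erase i, ff (P j) (fun p => v j p n) (2 * b j)) ≤
      ∑ n ∈ Ico x (x + H), g n * sif P v n :=
    Finset.sum_le_sum fun n _ => mul_le_mul_of_nonneg_left (D.sif_ge b n) (D.gnonneg n)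
  have h6 : ∑ n ∈ Ico x (x + H), g n * (∏ i, ff (P i) (fun p => v i p n) (2 * b i) -
      ∑ i, ee (P i) (fun p => v i p n) (2 * b i) *
        ∏ j ∈ univ.erase i, ff (P j) (fun p => v j p n) (2 * b j)) =
      ∑ n ∈ Ico x (x + H), g n * ∏ i, ff (P i) (fun p => v i p n) (2 * b i) -
      ∑ i, ∑ n ∈ Ico x (x + H), g n * (ee (P i) (fun p => v i p n) (2 * b i) *
        ∏ j ∈ univ.erase i, ff (P j) (fun p => v j p n) (2 * b j)) := by
    rw [Finset.sum_comm, ← Finset.sum_sub_distrib]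
    refine Finset.sum_congr rfl fun n _ => ?_
    rw [mul_sub, Finset.mul_sum]
  rw [h6] at h5
  have h7 : ∑ i, ∑ n ∈ Ico x (x + H), g n * (ee (P i) (fun p => v i p n) (2 * b i) *
        ∏ j ∈ univ.erase i, ff (P j) (fun p => v j p n) (2 * b j)) ≤
      ∑ i, (H * ((∑ n ∈ range q, g n) / q * (ee (P i) (den (v i)) (2 * b i) *
        ∏ j ∈ univ.erase i, ff (P j) (den (v j)) (2 * b j))) +
        (∑ n ∈ range q, g n) * err P v b) :=
    Finset.sum_le_sum fun i _ => by
      have := (abs_le.1 (h2 i)).2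
      linarith
  rw [Finset.sum_add_distrib, Finset.sum_const, Finset.card_univ, nsmul_eq_mul,
    ← Finset.mul_sum, ← Finset.mul_sum] at h7
  have h8 := (abs_le.1 h1).1
  have h9 := mul_le_mul_of_nonneg_left e3 hG
  have h10 : (H : ℝ) * ((∑ n ∈ range q, g n) / q * (∏ i, ff (P i) (den (v i)) (2 * b i) -
      ∑ i, ee (P i) (den (v i)) (2 * b i) *
        ∏ j ∈ univ.erase i, ff (P j) (den (v j)) (2 * b j))) =
      H * ((∑ n ∈ range q, g n) / q * ∏ i, ff (P i) (den (v i)) (2 * b i)) -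
      H * ((∑ n ∈ range q, g n) / q * ∑ i, ee (P i) (den (v i)) (2 * b i) *
        ∏ j ∈ univ.erase i, ff (P j) (den (v j)) (2 * b j)) := by ring
  rw [h10]
  linarith

end

end Pool.Agent.Helper73.OmegaSmall
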