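import Mathlib
import Pool.Agent.Helper73.OmegaSmall.BSieve

set_option autoImplicit false

/-!
Counting sifted integers without many additional prime factors.
-/

namespace Pool.Agent.Helper73.OmegaSmall

open Finset
open Pool.Agent.Helper73.OmegaShift (crt_sum sum_Ico_period)

/-- indicator of `D ∣ n + k` -/
noncomputable def dv (D k n : ℕ) : ℝ := if D ∣ n + k then 1 else 0

theorem dv_nonneg (D k n : ℕ) : 0 ≤ dv D k n := by
  unfold dv
  split_ifs
  · exact zero_le_one
  · exact le_rfl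

theorem dv_le_one (D k n : ℕ) : dv D k n ≤ 1 := by
  unfold dv
  split_ifs
  · exact le_rfl
  · exact zero_le_one

theorem dv_periodic (D k : ℕ) : Function.Periodic (dv D k) D := by
  intro n
  unfold dv
  have h : D ∣ n + D + k ↔ D ∣ n + k := by
    rw [show n + D + k = (n + k) + D by ring]
    exact Nat.dvd_add_self_right
  simp only [h]

theorem sum_dv (D k : ℕ) (hD : 0 < D) : ∑ n ∈ range D, dv D k n = 1 := by
  have h1 : ∑ n ∈ range D, dv D k n = ∑ m ∈ Ico k (k + D), dv D 0 m := by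
    rw [Finset.sum_Ico_eq_sum_range]
    have : k + D - k = D := by omega
    rw [this]
    refine Finset.sum_congr rfl fun n _ => ?_
    unfold dv
    rw [add_zero, add_comm k n]
  rw [h1, sum_Ico_period (dv_periodic D 0) k]
  rw [Finset.sum_eq_single 0]
  · unfold dv
    simp
  · intro n hn hn0
    unfold dv
    rw [add_zero, if_neg]
    intro h
    exact absurd (Nat.le_of_dvd (by omega) h) (by rw [Finset.mem_range] at hn; omega)
  · intro h
    exact absurd (Finset.mem_range.2 hD) h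

theorem sum_dv_mul (W D k : ℕ) (hW : 0 < W) (hD : 0 < D) (hc : W.Coprime D) :
    ∑ n ∈ range (W * D), dv W 0 n * dv D k n = 1 := by
  rw [crt_sum hc hW hD (dv_periodic W 0) (dv_periodic D k), sum_dv W 0 hW, sum_dv D k hD, one_mul]

section

variable {ι : Type} [Fintype ι] [DecidableEq ι] {P : ι → Finset ℕ} {v : ι → ℕ → ℕ → ℝ}
  {g : ℕ → ℝ} {q : ℕ}

/-- smallness conditions in the model -/
structure Small (P : ι → Finset ℕ) (v : ι → ℕ → ℕ → ℝ) (b : ι → ℕ) (δ : ι → ℝ) : Prop where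
  half : ∀ i, ∀ p ∈ P i, den (v i) p ≤ 1 / 2
  nonneg : ∀ i, 0 ≤ δ i
  bound : ∀ i, ee (P i) (den (v i)) (2 * b i) ≤ δ i * pp (P i) (den (v i))
  sum : ∑ i, δ i ≤ 1 / 4

/-- the main term -/
noncomputable def VV (P : ι → Finset ℕ) (v : ι → ℕ → ℕ → ℝ) : ℝ := ∏ i, pp (P i) (den (v i))

theorem Dat.VV_nonneg (D : Dat P v g q) : 0 ≤ VV P v :=
  Finset.prod_nonneg fun i _ => pp_nonneg fun p _ => D.den_le_one i p

omit [DecidableEq ι] in
theorem prod_one_add_le {δ : ι → ℝ} (h0 : ∀ i, 0 ≤ δ i) (hs : ∑ i, δ i ≤ 1 / 4)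
    (s : Finset ι) : ∏ i ∈ s, (1 + δ i) ≤ 4 / 3 := by
  have h1 : ∏ i ∈ s, (1 + δ i) ≤ Real.exp (∑ i ∈ s, δ i) := by
    rw [Real.exp_sum]
    refine Finset.prod_le_prod (fun i _ => by linarith [h0 i]) fun i _ => ?_
    linarith [Real.add_one_le_exp (δ i)]
  have h2 : ∑ i ∈ s, δ i ≤ 1 / 4 :=
    (Finset.sum_le_sum_of_subset_of_nonneg (Finset.subset_univ s) fun i _ _ => h0 i).trans hs
  have h3 : Real.exp (∑ i ∈ s, δ i) ≤ Real.exp (1 / 4) := Real.exp_le_exp.2 h2
  have h4 : Real.exp (1 / 4) ≤ 4 / 3 := by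
    have h5 := Real.one_sub_le_exp_neg (1 / 4 : ℝ)
    have h6 : Real.exp (-(1 / 4)) = (Real.exp (1 / 4))⁻¹ := Real.exp_neg _
    rw [h6] at h5
    have h7 : (0 : ℝ) < Real.exp (1 / 4) := Real.exp_pos _
    rw [le_inv_comm₀ (by norm_num) h7] at h5
    refine h5.trans ?_
    norm_num
  linarith

theorem Dat.ff_le (D : Dat P v g q) {b : ι → ℕ} {δ : ι → ℝ} (S : Small P v b δ) (i : ι) :
    ff (P i) (den (v i)) (2 * b i) ≤ pp (P i) (den (v i)) * (1 + δ i) := by
  have h := ff_even_le (P i) (den (v i)) (fun p _ => D.den_nonneg i p)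
    (fun p _ => D.den_le_one i p) (b i)
  have := S.bound i
  linarith

theorem Dat.ff_ge (D : Dat P v g q) (b : ι → ℕ) (i : ι) :
    pp (P i) (den (v i)) ≤ ff (P i) (den (v i)) (2 * b i) :=
  (bonf (P i) (den (v i)) (fun p _ => D.den_nonneg i p) (fun p _ => D.den_le_one i p) (b i)).1

theorem Dat.prod_ff_le (D : Dat P v g q) {b : ι → ℕ} {δ : ι → ℝ} (S : Small P v b δ) :
    ∏ i, ff (P i) (den (v i)) (2 * b i) ≤ VV P v * 2 := by
  have h0 : ∀ i, 0 ≤ pp (P i) (den (v i)) := fun i => pp_nonneg fun p _ => D.den_le_one i p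
  calc ∏ i, ff (P i) (den (v i)) (2 * b i) ≤ ∏ i, (pp (P i) (den (v i)) * (1 + δ i)) :=
        Finset.prod_le_prod (fun i _ => (h0 i).trans (D.ff_ge b i)) fun i _ => D.ff_le S i
    _ = VV P v * ∏ i, (1 + δ i) := Finset.prod_mul_distrib
    _ ≤ VV P v * (4 / 3) :=
        mul_le_mul_of_nonneg_left (prod_one_add_le S.nonneg S.sum univ) D.VV_nonneg
    _ ≤ VV P v * 2 := mul_le_mul_of_nonneg_left (by norm_num) D.VV_nonneg

theorem Dat.main_ge (D : Dat P v g q) {b : ι → ℕ} {δ : ι → ℝ} (S : Small P v b δ) :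
    VV P v / 2 ≤ ∏ i, ff (P i) (den (v i)) (2 * b i) -
      ∑ i, ee (P i) (den (v i)) (2 * b i) *
        ∏ j ∈ univ.erase i, ff (P j) (den (v j)) (2 * b j) := by
  have h0 : ∀ i, 0 ≤ pp (P i) (den (v i)) := fun i => pp_nonneg fun p _ => D.den_le_one i p
  have h1 : VV P v ≤ ∏ i, ff (P i) (den (v i)) (2 * b i) :=
    Finset.prod_le_prod (fun i _ => h0 i) fun i _ => D.ff_ge b i
  have h2 : ∀ i, ee (P i) (den (v i)) (2 * b i) *
      ∏ j ∈ univ.erase i, ff (P j) (den (v j)) (2 * b j) ≤ δ i * (VV P v * (4 / 3)) := by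
    intro i
    have h3 : ∏ j ∈ univ.erase i, ff (P j) (den (v j)) (2 * b j) ≤
        (∏ j ∈ univ.erase i, pp (P j) (den (v j))) * (4 / 3) := by
      calc ∏ j ∈ univ.erase i, ff (P j) (den (v j)) (2 * b j)
          ≤ ∏ j ∈ univ.erase i, (pp (P j) (den (v j)) * (1 + δ j)) :=
            Finset.prod_le_prod (fun j _ => (h0 j).trans (D.ff_ge b j)) fun j _ => D.ff_le S j
        _ = (∏ j ∈ univ.erase i, pp (P j) (den (v j))) * ∏ j ∈ univ.erase i, (1 + δ j) :=
            Finset.prod_mul_distrib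
        _ ≤ _ := mul_le_mul_of_nonneg_left (prod_one_add_le S.nonneg S.sum _)
            (Finset.prod_nonneg fun j _ => h0 j)
    have h4 : 0 ≤ ∏ j ∈ univ.erase i, ff (P j) (den (v j)) (2 * b j) :=
      Finset.prod_nonneg fun j _ => (h0 j).trans (D.ff_ge b j)
    have h5 : 0 ≤ δ i * pp (P i) (den (v i)) := mul_nonneg (S.nonneg i) (h0 i)
    calc ee (P i) (den (v i)) (2 * b i) * ∏ j ∈ univ.erase i, ff (P j) (den (v j)) (2 * b j)
        ≤ (δ i * pp (P i) (den (v i))) * ((∏ j ∈ univ.erase i, pp (P j) (den (v j))) * (4 / 3)) :=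
          mul_le_mul (S.bound i) h3 h4 h5
      _ = δ i * ((pp (P i) (den (v i)) * ∏ j ∈ univ.erase i, pp (P j) (den (v j))) * (4 / 3)) := by
          ring
      _ = δ i * (VV P v * (4 / 3)) := by
          rw [Finset.mul_prod_erase univ (fun j => pp (P j) (den (v j))) (Finset.mem_univ i)]
          rfl
  have h6 : ∑ i, ee (P i) (den (v i)) (2 * b i) *
      ∏ j ∈ univ.erase i, ff (P j) (den (v j)) (2 * b j) ≤ (1 / 4) * (VV P v * (4 / 3)) := by
    refine (Finset.sum_le_sum fun i _ => h2 i).trans ?_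
    rw [← Finset.sum_mul]
    exact mul_le_mul_of_nonneg_right S.sum (by have := D.VV_nonneg; positivity)
  have := D.VV_nonneg
  linarith

/-- the model after removing the primes of `T` -/
theorem pp_sdiff {Q T : Finset ℕ} {a : ℕ → ℝ} (h0 : ∀ p ∈ Q, 0 ≤ a p)
    (h1 : ∀ p ∈ Q, a p ≤ 1 / 2) :
    pp Q a ≤ pp (Q \ T) a ∧ pp (Q \ T) a ≤ pp Q a * 2 ^ (Q ∩ T).card := by
  have h2 : pp Q a = pp (Q \ T) a * pp (Q ∩ T) a := by
    unfold pp
    rw [← Finset.prod_union (Finset.disjoint_sdiff_inter Q T), Finset.sdiff_union_inter]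
  have h3 : 0 ≤ pp (Q \ T) a := pp_nonneg fun p hp => by
    have := h1 p (Finset.mem_sdiff.1 hp).1
    linarith
  have h4 : pp (Q ∩ T) a ≤ 1 := pp_le_one (fun p hp => h0 p (Finset.mem_inter.1 hp).1)
    fun p hp => by
      have := h1 p (Finset.mem_inter.1 hp).1
      linarith
  have h5 : (1 : ℝ) ≤ pp (Q ∩ T) a * 2 ^ (Q ∩ T).card := by
    unfold pp
    rw [← Finset.prod_const, ← Finset.prod_mul_distrib]
    calc (1 : ℝ) = ∏ p ∈ Q ∩ T, (1 : ℝ) := Finset.prod_const_one.symm
      _ ≤ ∏ p ∈ Q ∩ T, (1 - a p) * 2 :=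
        Finset.prod_le_prod (fun _ _ => zero_le_one) fun p hp => by
          have := h1 p (Finset.mem_inter.1 hp).1
          linarith
  constructor
  · rw [h2]
    calc pp (Q \ T) a * pp (Q ∩ T) a ≤ pp (Q \ T) a * 1 := mul_le_mul_of_nonneg_left h4 h3
      _ = pp (Q \ T) a := mul_one _
  · rw [h2]
    calc pp (Q \ T) a = pp (Q \ T) a * 1 := (mul_one _).symm
      _ ≤ pp (Q \ T) a * (pp (Q ∩ T) a * 2 ^ (Q ∩ T).card) :=
          mul_le_mul_of_nonneg_left h5 h3
      _ = _ := by ring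

theorem Dat.small_shrink (D : Dat P v g q) {b : ι → ℕ} {δ : ι → ℝ} (S : Small P v b δ)
    (T : Finset ℕ) : Small (fun i => P i \ T) v b δ where
  half i p hp := S.half i p (Finset.mem_sdiff.1 hp).1
  nonneg := S.nonneg
  bound i := by
    refine (ee_mono Finset.sdiff_subset (fun p _ => D.den_nonneg i p) _).trans
      ((S.bound i).trans (mul_le_mul_of_nonneg_left ?_ (S.nonneg i)))
    exact (pp_sdiff (fun p _ => D.den_nonneg i p) (S.half i)).1
  sum := S.sum

theorem Dat.VV_shrink (D : Dat P v g q) {b : ι → ℕ} {δ : ι → ℝ} (S : Small P v b δ)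
    (T : Finset ℕ) : VV (fun i => P i \ T) v ≤ VV P v * 2 ^ T.card := by
  have h1 : VV (fun i => P i \ T) v ≤ ∏ i, (pp (P i) (den (v i)) * 2 ^ (P i ∩ T).card) :=
    Finset.prod_le_prod (fun i _ => pp_nonneg fun p _ => D.den_le_one i p)
      fun i _ => (pp_sdiff (fun p _ => D.den_nonneg i p) (S.half i)).2
  refine h1.trans ?_
  rw [Finset.prod_mul_distrib, Finset.prod_pow_eq_pow_sum]
  refine mul_le_mul_of_nonneg_left (pow_le_pow_right₀ (by norm_num) ?_) D.VV_nonneg
  rw [← Finset.card_biUnion]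
  · refine Finset.card_le_card fun p hp => ?_
    obtain ⟨i, _, hi⟩ := Finset.mem_biUnion.1 hp
    exact (Finset.mem_inter.1 hi).2
  · intro i _ j _ hij
    exact (D.disj i j hij).mono Finset.inter_subset_left Finset.inter_subset_left

theorem Dat.err_shrink (D : Dat P v g q) (b : ι → ℕ) (T : Finset ℕ) :
    err (fun i => P i \ T) v b ≤ err P v b := by
  have h0 : ∀ (i : ι) (Q : Finset ℕ), 0 ≤ ∑ p ∈ Q, kap (v i) p := fun i Q =>
    Finset.sum_nonneg fun p _ => D.kap_nonneg i p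
  refine Finset.prod_le_prod (fun i _ => pow_nonneg (by linarith [h0 i (P i \ T)]) _)
    fun i _ => pow_le_pow_left₀ (by linarith [h0 i (P i \ T)]) ?_ _
  have := Finset.sum_le_sum_of_subset_of_nonneg (Finset.sdiff_subset : P i \ T ⊆ P i)
    fun p _ _ => D.kap_nonneg i p
  linarith

theorem Dat.sif_nonneg (D : Dat P v g q) (n : ℕ) : 0 ≤ sif P v n :=
  Finset.prod_nonneg fun i _ => pp_nonneg fun p _ => D.v_le_one i p n

theorem Dat.sif_le_one (D : Dat P v g q) (n : ℕ) : sif P v n ≤ 1 :=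
  Finset.prod_le_one (fun i _ => pp_nonneg fun p _ => D.v_le_one i p n)
    fun i _ => pp_le_one (fun p _ => D.v_nonneg i p n) fun p _ => D.v_le_one i p n

theorem Dat.sif_zero_or (D : Dat P v g q) (n : ℕ) :
    sif P v n = 0 ∨ ∀ i, ∀ p ∈ P i, v i p n = 0 := by
  by_cases h : ∀ i, ∀ p ∈ P i, v i p n = 0
  · exact Or.inr h
  · left
    push Not at h
    obtain ⟨i, p, hp, hv⟩ := h
    have h1 : v i p n = 1 := (D.v01 i p n).resolve_left hv
    refine Finset.prod_eq_zero (Finset.mem_univ i) ?_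
    refine Finset.prod_eq_zero hp ?_
    show 1 - v i p n = 0
    rw [h1, sub_self]

theorem Dat.sif_shrink (D : Dat P v g q) (T : Finset ℕ) (n : ℕ) :
    sif P v n ≤ sif (fun i => P i \ T) v n := by
  refine Finset.prod_le_prod (fun i _ => pp_nonneg fun p _ => D.v_le_one i p n) fun i _ => ?_
  have h2 : pp (P i) (fun p => v i p n) =
      pp (P i \ T) (fun p => v i p n) * pp (P i ∩ T) (fun p => v i p n) := by
    unfold pp
    rw [← Finset.prod_union (Finset.disjoint_sdiff_inter (P i) T), Finset.sdiff_union_inter]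
  rw [h2]
  have h3 : pp (P i ∩ T) (fun p => v i p n) ≤ 1 :=
    pp_le_one (fun p _ => D.v_nonneg i p n) fun p _ => D.v_le_one i p n
  have h4 : 0 ≤ pp (P i \ T) (fun p => v i p n) := pp_nonneg fun p _ => D.v_le_one i p n
  calc _ ≤ pp (P i \ T) (fun p => v i p n) * 1 := mul_le_mul_of_nonneg_left h3 h4
    _ = _ := mul_one _

/-- lower bound for the sifted integers -/
theorem low_count {W : ℕ} (D : Dat P v (dv W 0) W) {b : ι → ℕ} {δ : ι → ℝ}
    (S : Small P v b δ) (x H : ℕ) :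
    H * (1 / W * (VV P v / 2)) - (Fintype.card ι + 1) * err P v b ≤
      ∑ n ∈ Ico x (x + H), dv W 0 n * sif P v n := by
  have h1 := D.lower b x H
  rw [sum_dv W 0 D.qpos, one_mul] at h1
  have h2 := D.main_ge S
  have hW : (0 : ℝ) ≤ 1 / (W : ℝ) := by positivity
  have h3 : (H : ℝ) * (1 / W * (VV P v / 2)) ≤ H * (1 / W *
      (∏ i, ff (P i) (den (v i)) (2 * b i) - ∑ i, ee (P i) (den (v i)) (2 * b i) *
        ∏ j ∈ univ.erase i, ff (P j) (den (v j)) (2 * b j))) :=
    mul_le_mul_of_nonneg_left (mul_le_mul_of_nonneg_left h2 hW) (Nat.cast_nonneg _)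
  linarith

/-- upper bound for the sifted integers `n` with `∏ T ∣ n + k` -/
theorem up_count {W : ℕ} (D : Dat P v (dv W 0) W) {b : ι → ℕ} {δ : ι → ℝ}
    (S : Small P v b δ) (T : Finset ℕ) (hT : ∀ p ∈ T, p.Prime) (hTW : ∀ p ∈ T, W.Coprime p)
    (k x H : ℕ) :
    ∑ n ∈ Ico x (x + H), dv W 0 n * sif P v n * dv (∏ p ∈ T, p) k n ≤
      H * (1 / W * VV P v) * (2 * 2 ^ T.card * ∏ p ∈ T, (1 / (p : ℝ))) + err P v b := by
  have hWT : W.Coprime (∏ p ∈ T, p) := Nat.Coprime.prod_right fun p hp => hTW p hp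
  have hT0 : 0 < ∏ p ∈ T, p := Finset.prod_pos fun p hp => (hT p hp).pos
  set DD := ∏ p ∈ T, p with hDD
  have hper : Function.Periodic (fun n => dv W 0 n * dv DD k n) (W * DD) := by
    intro n
    have h1 : dv W 0 (n + W * DD) = dv W 0 n := by
      have := (dv_periodic W 0).nat_mul DD n
      rwa [mul_comm] at this
    have h2 : dv DD k (n + W * DD) = dv DD k n := (dv_periodic DD k).nat_mul W n
    show dv W 0 (n + W * DD) * dv DD k (n + W * DD) = _
    rw [h1, h2]
  have D2 := D.shrink T (fun n => dv W 0 n * dv DD k n) (W * DD)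
    (Nat.mul_pos D.qpos hT0) hper
    (fun n => mul_nonneg (dv_nonneg _ _ _) (dv_nonneg _ _ _)) (by
      intro i p hp
      rw [Finset.mem_sdiff] at hp
      refine Nat.Coprime.mul_left (D.cop i p hp.1) ?_
      refine Nat.Coprime.prod_left fun r hr => ?_
      refine (Nat.coprime_primes (hT r hr) (D.prime i p hp.1)).2 fun h => hp.2 (h ▸ hr))
  have S2 := D.small_shrink S T
  have h1 := D2.upper b x H
  rw [sum_dv_mul W DD k D.qpos hT0 hWT, one_mul] at h1
  have h2 : ∏ i, ff (P i \ T) (den (v i)) (2 * b i) ≤ VV P v * 2 ^ T.card * 2 :=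
    (D2.prod_ff_le S2).trans (mul_le_mul_of_nonneg_right (D.VV_shrink S T) (by norm_num))
  have h3 := D.err_shrink b T
  have h4 : ∑ n ∈ Ico x (x + H), dv W 0 n * sif P v n * dv DD k n ≤
      ∑ n ∈ Ico x (x + H), dv W 0 n * dv DD k n * sif (fun i => P i \ T) v n := by
    refine Finset.sum_le_sum fun n _ => ?_
    have h5 : 0 ≤ dv W 0 n * dv DD k n := mul_nonneg (dv_nonneg _ _ _) (dv_nonneg _ _ _)
    calc dv W 0 n * sif P v n * dv DD k n = dv W 0 n * dv DD k n * sif P v n := by ring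
      _ ≤ _ := mul_le_mul_of_nonneg_left (D.sif_shrink T n) h5
  have h6 : (0 : ℝ) ≤ 1 / ((W * DD : ℕ) : ℝ) := by positivity
  have h7 : (H : ℝ) * (1 / ((W * DD : ℕ) : ℝ) * ∏ i, ff (P i \ T) (den (v i)) (2 * b i)) ≤
      H * (1 / ((W * DD : ℕ) : ℝ) * (VV P v * 2 ^ T.card * 2)) :=
    mul_le_mul_of_nonneg_left (mul_le_mul_of_nonneg_left h2 h6) (Nat.cast_nonneg _)
  have h8 : (H : ℝ) * (1 / ((W * DD : ℕ) : ℝ) * (VV P v * 2 ^ T.card * 2)) =
      H * (1 / W * VV P v) * (2 * 2 ^ T.card * ∏ p ∈ T, (1 / (p : ℝ))) := by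
    have h9 : ∏ p ∈ T, (1 / (p : ℝ)) = 1 / (DD : ℝ) := by
      rw [Finset.prod_div_distrib, Finset.prod_const_one, hDD]
      push_cast
      rfl
    rw [h9]
    have hW : (W : ℝ) ≠ 0 := by
      have := D.qpos
      positivity
    have hDD' : (DD : ℝ) ≠ 0 := by positivity
    push_cast
    field_simp
  linarith

/-- **Counting theorem.** -/
theorem count {W : ℕ} (D : Dat P v (dv W 0) W) {b : ι → ℕ} {δ : ι → ℝ}
    (S : Small P v b δ) (Ks : Finset ℕ) (M : ℕ → Finset ℕ) (r : ℕ → ℕ)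
    (hM : ∀ k ∈ Ks, ∀ p ∈ M k, p.Prime ∧ W.Coprime p)
    (hsum : ∑ k ∈ Ks, 2 * ((2 * ∑ p ∈ M k, 1 / (p : ℝ)) ^ r k / ((r k).factorial : ℝ)) ≤ 1 / 4)
    (Y : ℝ) (hY : ∀ k ∈ Ks, (((M k).powersetCard (r k)).card : ℝ) ≤ Y) (x H : ℕ)
    (E : Finset ℕ)
    (hE : ∀ n, x ≤ n → n < x + H → W ∣ n → (∀ i, ∀ p ∈ P i, v i p n = 0) →
      (∀ k ∈ Ks, ((M k).filter fun p => p ∣ n + k).card < r k) → n ∈ E) :
    H * (1 / W * VV P v) / 4 - (Fintype.card ι + 1 + Ks.card * Y) * err P v b ≤ E.card := by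
  classical
  set B := (H : ℝ) * (1 / W * VV P v) with hB
  have hB0 : 0 ≤ B := by
    have := D.VV_nonneg
    positivity
  -- bad events
  let bad : ℕ → ℕ → ℝ := fun k n => if r k ≤ ((M k).filter fun p => p ∣ n + k).card then 1 else 0
  have hbad0 : ∀ k n, 0 ≤ bad k n := by
    intro k n
    show 0 ≤ if r k ≤ ((M k).filter fun p => p ∣ n + k).card then (1 : ℝ) else 0
    split_ifs
    · exact zero_le_one
    · exact le_rfl
  have h1 : ∀ k ∈ Ks, ∑ n ∈ Ico x (x + H), dv W 0 n * sif P v n * bad k n ≤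
      B * (2 * ((2 * ∑ p ∈ M k, 1 / (p : ℝ)) ^ r k / ((r k).factorial : ℝ))) +
        Y * err P v b := by
    intro k hk
    have h2 : ∀ n, bad k n ≤ ∑ T ∈ (M k).powersetCard (r k), dv (∏ p ∈ T, p) k n := by
      intro n
      by_cases h : r k ≤ ((M k).filter fun p => p ∣ n + k).card
      · have h3 : bad k n = 1 := if_pos h
        rw [h3]
        obtain ⟨T, hT1, hT2⟩ := Finset.exists_subset_card_eq h
        have h4 : T ∈ (M k).powersetCard (r k) :=
          Finset.mem_powersetCard.2 ⟨hT1.trans (Finset.filter_subset _ _), hT2⟩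
        have h5 : dv (∏ p ∈ T, p) k n = 1 := by
          unfold dv
          rw [if_pos]
          refine Finset.prod_primes_dvd _ (fun p hp => ?_) fun p hp => ?_
          · exact ((hM k hk p (Finset.mem_filter.1 (hT1 hp)).1).1).prime
          · exact (Finset.mem_filter.1 (hT1 hp)).2
        rw [← h5]
        exact Finset.single_le_sum (f := fun T : Finset ℕ => dv (∏ p ∈ T, p) k n)
          (fun T _ => dv_nonneg _ _ _) h4
      · have h3 : bad k n = 0 := if_neg h
        rw [h3]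
        exact Finset.sum_nonneg fun T _ => dv_nonneg _ _ _
    calc ∑ n ∈ Ico x (x + H), dv W 0 n * sif P v n * bad k n
        ≤ ∑ n ∈ Ico x (x + H), dv W 0 n * sif P v n *
            ∑ T ∈ (M k).powersetCard (r k), dv (∏ p ∈ T, p) k n :=
          Finset.sum_le_sum fun n _ => mul_le_mul_of_nonneg_left (h2 n)
            (mul_nonneg (dv_nonneg _ _ _) (D.sif_nonneg n))
      _ = ∑ T ∈ (M k).powersetCard (r k), ∑ n ∈ Ico x (x + H),
            dv W 0 n * sif P v n * dv (∏ p ∈ T, p) k n := by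
          simp_rw [Finset.mul_sum]
          rw [Finset.sum_comm]
      _ ≤ ∑ T ∈ (M k).powersetCard (r k),
            (B * (2 * 2 ^ T.card * ∏ p ∈ T, (1 / (p : ℝ))) + err P v b) := by
          refine Finset.sum_le_sum fun T hT => ?_
          have hT1 := (Finset.mem_powersetCard.1 hT).1
          exact up_count D S T (fun p hp => (hM k hk p (hT1 hp)).1)
            (fun p hp => (hM k hk p (hT1 hp)).2) k x H
      _ = B * (2 * (2 ^ r k * ee (M k) (fun p => 1 / (p : ℝ)) (r k))) +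
            ((M k).powersetCard (r k)).card * err P v b := by
          rw [Finset.sum_add_distrib, Finset.sum_const, nsmul_eq_mul]
          congr 1
          unfold ee
          rw [Finset.mul_sum, Finset.mul_sum, Finset.mul_sum]
          refine Finset.sum_congr rfl fun T hT => ?_
          rw [(Finset.mem_powersetCard.1 hT).2]
          ring
      _ ≤ B * (2 * ((2 * ∑ p ∈ M k, 1 / (p : ℝ)) ^ r k / ((r k).factorial : ℝ))) +
            Y * err P v b := by
          have h6 := ee_le (M k) (fun p => 1 / (p : ℝ)) (fun p _ => by positivity) (r k)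
          have h7 : (2 : ℝ) ^ r k * ee (M k) (fun p => 1 / (p : ℝ)) (r k) ≤
              (2 * ∑ p ∈ M k, 1 / (p : ℝ)) ^ r k / ((r k).factorial : ℝ) := by
            calc (2 : ℝ) ^ r k * ee (M k) (fun p => 1 / (p : ℝ)) (r k)
                ≤ 2 ^ r k * ((∑ p ∈ M k, 1 / (p : ℝ)) ^ r k / ((r k).factorial : ℝ)) :=
                  mul_le_mul_of_nonneg_left h6 (by positivity)
              _ = _ := by rw [mul_pow]; ring
          have h8 := D.err_nonneg b
          exact add_le_add (mul_le_mul_of_nonneg_left (by linarith) hB0)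
            (mul_le_mul_of_nonneg_right (hY k hk) h8)
  have h9 : ∑ n ∈ Ico x (x + H), (dv W 0 n * sif P v n -
      ∑ k ∈ Ks, dv W 0 n * sif P v n * bad k n) ≤ E.card := by
    have h10 : ∀ n ∈ Ico x (x + H), dv W 0 n * sif P v n -
        ∑ k ∈ Ks, dv W 0 n * sif P v n * bad k n ≤ if n ∈ E then (1 : ℝ) else 0 := by
      intro n hn
      rw [Finset.mem_Ico] at hn
      have hws0 : 0 ≤ dv W 0 n * sif P v n := mul_nonneg (dv_nonneg _ _ _) (D.sif_nonneg n)
      have hws1 : dv W 0 n * sif P v n ≤ 1 :=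
        mul_le_one₀ (dv_le_one _ _ _) (D.sif_nonneg n) (D.sif_le_one n)
      have hsum0 : 0 ≤ ∑ k ∈ Ks, dv W 0 n * sif P v n * bad k n :=
        Finset.sum_nonneg fun k _ => mul_nonneg hws0 (hbad0 k n)
      by_cases hnE : n ∈ E
      · rw [if_pos hnE]
        linarith
      · rw [if_neg hnE]
        by_cases hW : W ∣ n
        · rcases D.sif_zero_or n with h | h
          · rw [h, mul_zero]
            simp
          · by_cases hK : ∀ k ∈ Ks, ((M k).filter fun p => p ∣ n + k).card < r k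
            · exact absurd (hE n hn.1 hn.2 hW h hK) hnE
            · push Not at hK
              obtain ⟨k, hk, hk2⟩ := hK
              have h11 : bad k n = 1 := if_pos hk2
              have h12 : dv W 0 n * sif P v n * bad k n ≤
                  ∑ k ∈ Ks, dv W 0 n * sif P v n * bad k n :=
                Finset.single_le_sum (f := fun k => dv W 0 n * sif P v n * bad k n)
                  (fun k _ => mul_nonneg hws0 (hbad0 k n)) hk
              rw [h11, mul_one] at h12
              linarith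
        · have h13 : dv W 0 n = 0 := by
            unfold dv
            rw [add_zero, if_neg hW]
          rw [h13]
          simp
    calc _ ≤ ∑ n ∈ Ico x (x + H), (if n ∈ E then (1 : ℝ) else 0) := Finset.sum_le_sum h10
      _ = (((Ico x (x + H)).filter fun n => n ∈ E).card : ℝ) := by
          rw [Finset.sum_ite, Finset.sum_const_zero, add_zero, Finset.sum_const, nsmul_eq_mul,
            mul_one]
      _ ≤ E.card := by
          exact_mod_cast Finset.card_le_card fun n hn => (Finset.mem_filter.1 hn).2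
  rw [Finset.sum_sub_distrib, Finset.sum_comm] at h9
  have h14 := low_count D S x H
  have h15 := Finset.sum_le_sum h1
  rw [Finset.sum_add_distrib, Finset.sum_const, nsmul_eq_mul, ← Finset.mul_sum] at h15
  have h16 := mul_le_mul_of_nonneg_left hsum hB0
  have h17 : (H : ℝ) * (1 / W * (VV P v / 2)) = B / 2 := by rw [hB]; ring
  rw [h17] at h14
  linarith

end

end Pool.Agent.Helper73.OmegaSmall
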