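import Mathlib
import Pool.Agent.Helper73.OmegaShift.Core
import Pool.Agent.Helper73.OmegaShift.Bdd

set_option autoImplicit false

/-!
Elementary bounds: `ω(m) log log k ≤ 4 c log k` if `log m ≤ c log k`, and sums of reciprocals.
-/

namespace Pool.Agent.Helper73.OmegaSmall

open Finset
open scoped ArithmeticFunction.omega
open Pool.Agent.Helper73.OmegaShift (omega_log_le term F_eq recip_upper recip_lower)

theorem log_three_gt : (1.09 : ℝ) < Real.log 3 := by
  rw [Real.lt_log_iff_exp_lt (by norm_num)]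
  have h1 : Real.exp (1.09 : ℝ) = Real.exp 1 * Real.exp 0.09 := by
    rw [← Real.exp_add]; norm_num
  have h2 := Real.exp_one_lt_d9
  have h3 : Real.exp (0.09 : ℝ) < 1.1 := by
    have h4 := Real.exp_bound_div_one_sub_of_interval (x := 0.09) (by norm_num) (by norm_num)
    refine h4.trans_lt ?_
    norm_num
  have h5 : (0 : ℝ) < Real.exp 1 := Real.exp_pos _
  rw [h1]
  nlinarith [Real.exp_pos (0.09 : ℝ)]

theorem om_bound {m k : ℕ} (hm : 0 < m) (hk : 3 ≤ k) {c : ℝ} (hc : 2 ≤ c)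
    (h : Real.log m ≤ c * Real.log k) :
    (ω m : ℝ) * Real.log (Real.log k) ≤ 4 * c * Real.log k := by
  have hk3 : (3 : ℝ) ≤ k := by exact_mod_cast hk
  have hℓ1 : (1.09 : ℝ) < Real.log k :=
    log_three_gt.trans_le (Real.log_le_log (by norm_num) hk3)
  set ℓ := Real.log (k : ℝ) with hℓ
  have hℓ0 : 0 < ℓ := by linarith
  have hlog0 : 0 ≤ Real.log ℓ := Real.log_nonneg (by linarith)
  have hlogℓ : Real.log ℓ ≤ ℓ := by
    have := Real.log_le_sub_one_of_pos hℓ0
    linarith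
  rcases Nat.eq_zero_or_pos (ω m) with hw | hw
  · rw [hw]
    simp only [Nat.cast_zero, zero_mul]
    positivity
  have hw' : (0 : ℝ) < (ω m : ℝ) := by exact_mod_cast hw
  have key := omega_log_le hm hw
  set t := (ω m : ℝ) with ht
  rcases le_or_gt t (Real.sqrt ℓ) with h1 | h1
  · have h2 : Real.log ℓ ≤ 2 * Real.sqrt ℓ := by
      have h3 : Real.log ℓ = 2 * Real.log (Real.sqrt ℓ) := by
        rw [Real.log_sqrt (by linarith)]
        ring
      rw [h3]
      have h4 := Real.log_le_sub_one_of_pos (Real.sqrt_pos.2 (by linarith : 0 < ℓ))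
      linarith
    have h5 : Real.sqrt ℓ * Real.sqrt ℓ = ℓ := Real.mul_self_sqrt (by linarith)
    have h6 : 0 ≤ Real.sqrt ℓ := Real.sqrt_nonneg ℓ
    calc t * Real.log ℓ ≤ Real.sqrt ℓ * (2 * Real.sqrt ℓ) := mul_le_mul h1 h2 hlog0 h6
      _ = 2 * (Real.sqrt ℓ * Real.sqrt ℓ) := by ring
      _ = 2 * ℓ := by rw [h5]
      _ ≤ 4 * c * ℓ := by nlinarith
  · have h2 : Real.log ℓ / 2 ≤ Real.log t := by
      rw [← Real.log_sqrt (by linarith)]
      exact Real.log_le_log (Real.sqrt_pos.2 (by linarith)) h1.le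
    rcases le_or_gt 2 (Real.log t) with h3 | h3
    · have h4 : t * 2 ≤ t * Real.log t := mul_le_mul_of_nonneg_left h3 hw'.le
      have h5 : t * (Real.log ℓ / 2) ≤ t * Real.log t := mul_le_mul_of_nonneg_left h2 hw'.le
      linarith
    · have h4 : t < 8 := by
        have h5 : t < Real.exp 2 := (Real.log_lt_iff_lt_exp hw').1 h3
        have h6 : Real.exp (2 : ℝ) = Real.exp 1 * Real.exp 1 := by
          rw [← Real.exp_add]; norm_num
        have h7 := Real.exp_one_lt_d9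
        have h8 : (0 : ℝ) < Real.exp 1 := Real.exp_pos _
        rw [h6] at h5
        nlinarith
      calc t * Real.log ℓ ≤ 8 * ℓ := mul_le_mul h4.le hlogℓ hlog0 (by norm_num)
        _ ≤ 4 * c * ℓ := by nlinarith

theorem term_small (n k : ℕ) (hk : k < 3) : term n k ≤ 0 := by
  unfold term
  have h1 : Real.log (Real.log (k : ℝ)) / Real.log (k : ℝ) ≤ 0 := by
    interval_cases k
    · simp
    · simp
    · have h2 : 0 < Real.log ((2 : ℕ) : ℝ) := by
        push_cast; exact Real.log_pos (by norm_num)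
      have h3 : Real.log (Real.log ((2 : ℕ) : ℝ)) ≤ 0 := by
        apply Real.log_nonpos h2.le
        push_cast
        linarith [Real.log_two_lt_d9]
      exact div_nonpos_of_nonpos_of_nonneg h3 h2.le
  exact mul_nonpos_of_nonneg_of_nonpos (Nat.cast_nonneg _) h1

/-- upper bound for `F` from bounds for the products -/
theorem F_le {n : ℕ} {C : ℝ} (hC : 0 ≤ C)
    (h : ∀ k : ℕ, 3 ≤ k → (ω (n + k) : ℝ) * Real.log (Real.log k) ≤ C * Real.log k) :
    N4a4fba6b.F n ≤ C := by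
  rw [F_eq]
  refine ciSup_le fun k => ?_
  rcases Nat.lt_or_ge k 3 with hk | hk
  · exact (term_small n k hk).trans hC
  · have hk3 : (3 : ℝ) ≤ k := by exact_mod_cast hk
    have hℓ0 : 0 < Real.log (k : ℝ) := Real.log_pos (by linarith)
    unfold term
    rw [mul_div_assoc', div_le_iff₀ hℓ0]
    exact h k hk

theorem mass_upper (A B : ℕ) (hA : 3 ≤ A) (hAB : A ≤ B) :
    ∑ p ∈ (Ioc A B).filter Nat.Prime, 1 / (p : ℝ) ≤
      Real.log (Real.log B) - Real.log (Real.log A) + 9 := by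
  have h1 := recip_upper B (hA.trans hAB)
  have h2 := recip_lower A hA
  have h3 : (Icc 1 B).filter Nat.Prime =
      (Icc 1 A).filter Nat.Prime ∪ (Ioc A B).filter Nat.Prime := by
    ext p
    rw [mem_union, mem_filter, mem_filter, mem_filter, mem_Icc, mem_Icc, mem_Ioc]
    constructor
    · rintro ⟨⟨h4, h5⟩, h6⟩
      rcases Nat.lt_or_ge A p with h7 | h7
      · exact Or.inr ⟨⟨h7, h5⟩, h6⟩
      · exact Or.inl ⟨⟨h4, h7⟩, h6⟩
    · rintro (⟨⟨h4, h5⟩, h6⟩ | ⟨⟨h4, h5⟩, h6⟩)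
      · exact ⟨⟨h4, by omega⟩, h6⟩
      · exact ⟨⟨by omega, h5⟩, h6⟩
  have h4 : Disjoint ((Icc 1 A).filter Nat.Prime) ((Ioc A B).filter Nat.Prime) := by
    rw [Finset.disjoint_left]
    intro p hp hq
    rw [mem_filter, mem_Icc] at hp
    rw [mem_filter, mem_Ioc] at hq
    omega
  rw [h3, Finset.sum_union h4] at h1
  linarith

/-- `2^(2^(a e))` -/
def zz (a e : ℕ) : ℕ := 2 ^ 2 ^ (a * e)

theorem zz_pos (a e : ℕ) : 0 < zz a e := pow_pos (by norm_num) _

theorem two_le_zz (a e : ℕ) : 2 ≤ zz a e := by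
  unfold zz
  calc 2 = 2 ^ 1 := by norm_num
    _ ≤ 2 ^ 2 ^ (a * e) := Nat.pow_le_pow_right (by norm_num) Nat.one_le_two_pow

theorem zz_zero (a : ℕ) : zz a 0 = 2 := by
  unfold zz
  simp

theorem zz_mono (a : ℕ) {e e' : ℕ} (h : e ≤ e') : zz a e ≤ zz a e' :=
  Nat.pow_le_pow_right (by norm_num) (Nat.pow_le_pow_right (by norm_num)
    (Nat.mul_le_mul_left a h))

theorem log_zz (a e : ℕ) : Real.log (zz a e) = 2 ^ (a * e) * Real.log 2 := by
  unfold zz
  push_cast
  rw [Real.log_pow]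
  push_cast
  ring

theorem loglog_zz (a e : ℕ) :
    Real.log (Real.log (zz a e)) = a * e * Real.log 2 + Real.log (Real.log 2) := by
  have h2 : 0 < Real.log 2 := Real.log_pos (by norm_num)
  rw [log_zz, Real.log_mul (by positivity) h2.ne', Real.log_pow]
  push_cast
  ring

theorem mass_zz (a w e e' : ℕ) (hw : 3 ≤ w) (he : e ≤ e') (Q : Finset ℕ)
    (hQ : ∀ p ∈ Q, p.Prime ∧ max w (zz a e) < p ∧ p ≤ zz a e') :
    ∑ p ∈ Q, 1 / (p : ℝ) ≤ a * ((e' : ℝ) - e) + 9 := by
  have hnn : (0 : ℝ) ≤ a * ((e' : ℝ) - e) := by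
    have : (e : ℝ) ≤ e' := by exact_mod_cast he
    have h2 : 0 ≤ (e' : ℝ) - e := by linarith
    positivity
  have hsub : Q ⊆ (Ioc (max w (zz a e)) (zz a e')).filter Nat.Prime := by
    intro p hp
    obtain ⟨h1, h2, h3⟩ := hQ p hp
    rw [mem_filter, mem_Ioc]
    exact ⟨⟨h2, h3⟩, h1⟩
  have h0 := Finset.sum_le_sum_of_subset_of_nonneg hsub
    (f := fun p : ℕ => 1 / (p : ℝ)) fun p _ _ => by positivity
  refine h0.trans ?_
  rcases Nat.lt_or_ge (zz a e') (max w (zz a e)) with h | h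
  · rw [Finset.Ioc_eq_empty (by omega), Finset.filter_empty, Finset.sum_empty]
    linarith
  · have h1 := mass_upper (max w (zz a e)) (zz a e') (hw.trans (le_max_left _ _)) h
    have h2 : Real.log (Real.log (zz a e)) ≤
        Real.log (Real.log ((max w (zz a e) : ℕ) : ℝ)) := by
      have h3 : (2 : ℝ) ≤ zz a e := by exact_mod_cast two_le_zz a e
      have h4 : 0 < Real.log (zz a e : ℝ) := Real.log_pos (by linarith)
      refine Real.log_le_log h4 (Real.log_le_log (by linarith) ?_)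
      exact_mod_cast le_max_right w (zz a e)
    rw [loglog_zz] at h1 h2
    have h5 : Real.log 2 ≤ 1 := by linarith [Real.log_two_lt_d9]
    have h6 : (a : ℝ) * ((e' : ℝ) - e) * Real.log 2 ≤ a * ((e' : ℝ) - e) * 1 :=
      mul_le_mul_of_nonneg_left h5 hnn
    linarith

end Pool.Agent.Helper73.OmegaSmall
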