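import Mathlib
import Pool.Agent.Helper73.OmegaSmall.Om
import Pool.Agent.Helper73.OmegaSmall.Count

set_option autoImplicit false

/-!
The parameters of the sieve.
-/

namespace Pool.Agent.Helper73.OmegaSmall

open Finset
open Pool.Agent.Helper73.OmegaShift (hit hit_01 hit_periodic hit_nonneg)

/-- primes up to `ww N` divide the modulus -/
def ww (N : ℕ) : ℕ := 2 ^ (N + 1)

/-- the blocks of primes; block `i` has level `i + 6` -/
def PP (a N : ℕ) (i : Fin (N - 6)) : Finset ℕ :=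
  (Ioc (max (ww N) (zz a (N - ((i : ℕ) + 7)))) (zz a (N - ((i : ℕ) + 6)))).filter Nat.Prime

/-- the hits: `p` divides `n + k` for some `3 ≤ k ≤ 2 ^ (i + 6)` -/
noncomputable def vv (N : ℕ) (i : Fin (N - 6)) : ℕ → ℕ → ℝ := hit (2 ^ ((i : ℕ) + 6) - 2)

theorem mem_PP {a N : ℕ} {i : Fin (N - 6)} {p : ℕ} :
    p ∈ PP a N i ↔ p.Prime ∧ ww N < p ∧ zz a (N - ((i : ℕ) + 7)) < p ∧
      p ≤ zz a (N - ((i : ℕ) + 6)) := by
  unfold PP
  rw [mem_filter, mem_Ioc, max_lt_iff]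
  tauto

theorem kap_hit_le (J p : ℕ) (hp : 0 < p) : kap (hit J) p ≤ J := by
  unfold kap
  have h1 : ∀ n, hit J p n ≤ ∑ k ∈ Icc 3 (J + 2), dv p k n := by
    intro n
    unfold hit
    split_ifs with h
    · obtain ⟨k, hk, hd⟩ := h
      have h2 : dv p k n = 1 := by
        unfold dv
        rw [if_pos hd]
      rw [← h2]
      exact Finset.single_le_sum (f := fun k => dv p k n) (fun k _ => dv_nonneg _ _ _) hk
    · exact Finset.sum_nonneg fun k _ => dv_nonneg _ _ _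
  calc ∑ n ∈ range p, hit J p n ≤ ∑ n ∈ range p, ∑ k ∈ Icc 3 (J + 2), dv p k n :=
        Finset.sum_le_sum fun n _ => h1 n
    _ = ∑ k ∈ Icc 3 (J + 2), ∑ n ∈ range p, dv p k n := Finset.sum_comm
    _ = ∑ k ∈ Icc 3 (J + 2), (1 : ℝ) := Finset.sum_congr rfl fun k _ => sum_dv p k hp
    _ = J := by
        rw [Finset.sum_const, Nat.card_Icc, nsmul_eq_mul, mul_one]
        have : J + 2 + 1 - 3 = J := by omega
        rw [this]

theorem kap_vv_le {N : ℕ} (i : Fin (N - 6)) (p : ℕ) (hp : 0 < p) :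
    kap (vv N i) p ≤ 2 ^ ((i : ℕ) + 6) := by
  have h1 := kap_hit_le (2 ^ ((i : ℕ) + 6) - 2) p hp
  have h2 : ((2 ^ ((i : ℕ) + 6) - 2 : ℕ) : ℝ) ≤ ((2 ^ ((i : ℕ) + 6) : ℕ) : ℝ) := by
    exact_mod_cast Nat.sub_le _ _
  push_cast at h2
  exact h1.trans h2

theorem PP_ww {a N : ℕ} {i : Fin (N - 6)} {p : ℕ} (hp : p ∈ PP a N i) : ww N < p :=
  (mem_PP.1 hp).2.1

theorem den_vv_le {a N : ℕ} {i : Fin (N - 6)} {p : ℕ} (hp : p ∈ PP a N i) :
    den (vv N i) p ≤ 2 ^ ((i : ℕ) + 6) * (1 / p) ∧ den (vv N i) p ≤ 1 / 2 := by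
  have hp0 : 0 < p := (mem_PP.1 hp).1.pos
  have hp' : (0 : ℝ) < p := by exact_mod_cast hp0
  have h1 := kap_vv_le i p hp0
  have h2 : den (vv N i) p ≤ 2 ^ ((i : ℕ) + 6) / p := div_le_div_of_nonneg_right h1 hp'.le
  refine ⟨by rw [mul_one_div]; exact h2, h2.trans ?_⟩
  rw [div_le_iff₀ hp']
  have h3 : ((ww N : ℕ) : ℝ) ≤ p := by exact_mod_cast (PP_ww hp).le
  have h4 : (2 : ℝ) ^ ((i : ℕ) + 6) ≤ 2 ^ N :=
    pow_le_pow_right₀ (by norm_num) (by have := i.2; omega)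
  have h5 : ((ww N : ℕ) : ℝ) = 2 * 2 ^ N := by
    unfold ww
    push_cast
    ring
  linarith

theorem PP_disj {a N : ℕ} (i j : Fin (N - 6)) (hij : i ≠ j) :
    Disjoint (PP a N i) (PP a N j) := by
  rw [Finset.disjoint_left]
  intro p hp hq
  obtain ⟨_, _, h1, h2⟩ := mem_PP.1 hp
  obtain ⟨_, _, h3, h4⟩ := mem_PP.1 hq
  have hij' : (i : ℕ) ≠ j := fun h => hij (Fin.ext h)
  rcases Nat.lt_or_ge (i : ℕ) j with h | h
  · have h5 : zz a (N - ((j : ℕ) + 6)) ≤ zz a (N - ((i : ℕ) + 7)) := zz_mono a (by omega)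
    omega
  · have h5 : zz a (N - ((i : ℕ) + 6)) ≤ zz a (N - ((j : ℕ) + 7)) := zz_mono a (by omega)
    omega

theorem dat (a N : ℕ) :
    Dat (PP a N) (vv N) (dv (primorial (ww N)) 0) (primorial (ww N)) where
  prime i p hp := (mem_PP.1 hp).1
  disj := PP_disj
  v01 i p n := hit_01 _ p n
  per i p := hit_periodic _ p
  qpos := primorial_pos _
  gper := dv_periodic _ _
  gnonneg n := dv_nonneg _ _ _
  cop i p hp := by
    unfold primorial
    refine Nat.Coprime.prod_left fun r hr => ?_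
    rw [mem_filter, mem_range] at hr
    have h1 := PP_ww hp
    exact (Nat.coprime_primes hr.2 (mem_PP.1 hp).1).2 (by omega)

theorem three_le_ww {N : ℕ} (hN : 1 ≤ N) : 3 ≤ ww N := by
  unfold ww
  calc 3 ≤ 2 ^ 2 := by norm_num
    _ ≤ 2 ^ (N + 1) := Nat.pow_le_pow_right (by norm_num) (by omega)

theorem mu_le (a N : ℕ) (i : Fin (N - 6)) :
    ∑ p ∈ PP a N i, den (vv N i) p ≤ 2 ^ ((i : ℕ) + 6) * (a + 9) := by
  have hi := i.2
  have h1 := mass_zz a (ww N) (N - ((i : ℕ) + 7)) (N - ((i : ℕ) + 6)) (three_le_ww (by omega))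
    (by omega) (PP a N i) (fun p hp => by
      obtain ⟨h1, h2, h3, h4⟩ := mem_PP.1 hp
      exact ⟨h1, max_lt h2 h3, h4⟩)
  have h2 : ((N - ((i : ℕ) + 6) : ℕ) : ℝ) - ((N - ((i : ℕ) + 7) : ℕ) : ℝ) = 1 := by
    have : N - ((i : ℕ) + 6) = (N - ((i : ℕ) + 7)) + 1 := by omega
    rw [this]
    push_cast
    ring
  rw [h2, mul_one] at h1
  calc ∑ p ∈ PP a N i, den (vv N i) p ≤ ∑ p ∈ PP a N i, 2 ^ ((i : ℕ) + 6) * (1 / (p : ℝ)) :=
        Finset.sum_le_sum fun p hp => (den_vv_le hp).1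
    _ = 2 ^ ((i : ℕ) + 6) * ∑ p ∈ PP a N i, 1 / (p : ℝ) := by rw [Finset.mul_sum]
    _ ≤ _ := mul_le_mul_of_nonneg_left h1 (by positivity)

theorem one_sub_ge {t : ℝ} (h0 : 0 ≤ t) (h1 : t ≤ 1 / 2) : Real.exp (-(2 * t)) ≤ 1 - t := by
  have h2 : 0 < 1 - t := by linarith
  have h3 : Real.exp (2 * t) * (1 - t) ≥ 1 := by
    have h4 : 1 + 2 * t ≤ Real.exp (2 * t) := by
      have := Real.add_one_le_exp (2 * t)
      linarith
    nlinarith
  rw [Real.exp_neg, inv_le_iff_one_le_mul₀ (Real.exp_pos _)]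
  linarith

theorem pp_ge {Q : Finset ℕ} {a : ℕ → ℝ} (h0 : ∀ p ∈ Q, 0 ≤ a p) (h1 : ∀ p ∈ Q, a p ≤ 1 / 2) :
    Real.exp (-(2 * ∑ p ∈ Q, a p)) ≤ pp Q a := by
  have h2 : -(2 * ∑ p ∈ Q, a p) = ∑ p ∈ Q, -(2 * a p) := by
    rw [Finset.mul_sum, Finset.sum_neg_distrib]
  rw [h2, Real.exp_sum]
  exact Finset.prod_le_prod (fun p _ => (Real.exp_pos _).le) fun p hp =>
    one_sub_ge (h0 p hp) (h1 p hp)

/-- half the truncation parameter -/
def bb (a N : ℕ) (i : Fin (N - 6)) : ℕ := 16 * (a + 9) * 2 ^ ((i : ℕ) + 6)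

theorem pow_div_fact_le {μ c : ℝ} (h0 : 0 ≤ μ) {m : ℕ} (hm : 0 < m) (h : μ ≤ c * m) :
    μ ^ m / (m.factorial : ℝ) ≤ (Real.exp 1 * c) ^ m := by
  have hm' : (0 : ℝ) < m := by exact_mod_cast hm
  have hf : (0 : ℝ) < m.factorial := by exact_mod_cast Nat.factorial_pos _
  have h1 : (m : ℝ) ^ m / (m.factorial : ℝ) ≤ Real.exp m :=
    Real.pow_div_factorial_le_exp (m : ℝ) hm'.le m
  have h2 : μ ^ m ≤ (c * m) ^ m := pow_le_pow_left₀ h0 h m
  have hc : 0 ≤ c := by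
    by_contra hcon
    push Not at hcon
    have : c * m < 0 := mul_neg_of_neg_of_pos hcon hm'
    linarith
  have h3 : Real.exp m = Real.exp 1 ^ m := by
    rw [← Real.exp_nat_mul, mul_one]
  calc μ ^ m / (m.factorial : ℝ) ≤ (c * m) ^ m / (m.factorial : ℝ) :=
        div_le_div_of_nonneg_right h2 hf.le
    _ = c ^ m * ((m : ℝ) ^ m / (m.factorial : ℝ)) := by rw [mul_pow]; ring
    _ ≤ c ^ m * Real.exp m := mul_le_mul_of_nonneg_left h1 (by positivity)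
    _ = _ := by rw [h3, mul_pow]; ring

theorem small (a N : ℕ) : Small (PP a N) (vv N) (bb a N) fun i => (1 / 2) ^ ((i : ℕ) + 3) where
  half i p hp := (den_vv_le hp).2
  nonneg i := by positivity
  bound i := by
    have D := dat a N
    have hμ := mu_le a N i
    set μ := ∑ p ∈ PP a N i, den (vv N i) p with hμd
    have hμ0 : 0 ≤ μ := Finset.sum_nonneg fun p _ => D.den_nonneg i p
    set m := 2 * bb a N i with hm
    have hmr : (m : ℝ) = 32 * (2 ^ ((i : ℕ) + 6) * (a + 9)) := by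
      rw [hm]
      unfold bb
      push_cast
      ring
    have hm64 : (i : ℕ) + 3 ≤ m := by
      have h1 : (i : ℕ) + 6 < 2 ^ ((i : ℕ) + 6) := Nat.lt_two_pow_self
      have h2 : 1 * 2 ^ ((i : ℕ) + 6) ≤ 16 * (a + 9) * 2 ^ ((i : ℕ) + 6) :=
        Nat.mul_le_mul_right _ (by omega)
      rw [hm]
      unfold bb
      omega
    have hm0 : 0 < m := by omega
    have h1 : ee (PP a N i) (den (vv N i)) m ≤ (Real.exp 1 * (1 / 32)) ^ m :=
      (ee_le _ _ (fun p _ => D.den_nonneg i p) m).trans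
        (pow_div_fact_le hμ0 hm0 (by rw [hmr]; linarith))
    have h2 : (Real.exp 1 * (1 / 32)) ^ m ≤ (1 / 8) ^ m :=
      pow_le_pow_left₀ (by positivity) (by linarith [Real.exp_one_lt_d9]) m
    have h3 : (1 / 2 : ℝ) ^ m ≤ pp (PP a N i) (den (vv N i)) := by
      refine le_trans ?_ (pp_ge (fun p _ => D.den_nonneg i p) fun p hp => (den_vv_le hp).2)
      have h4 : (1 / 2 : ℝ) ≤ Real.exp (-(1 / 16)) := by
        have := Real.one_sub_le_exp_neg (1 / 16 : ℝ)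
        linarith
      calc (1 / 2 : ℝ) ^ m ≤ Real.exp (-(1 / 16)) ^ m := pow_le_pow_left₀ (by norm_num) h4 m
        _ = Real.exp (-((1 / 16) * m)) := by
            rw [← Real.exp_nat_mul]
            congr 1
            ring
        _ ≤ _ := Real.exp_le_exp.2 (by rw [hmr]; linarith)
    have h5 : (1 / 8 : ℝ) ^ m ≤ (1 / 2) ^ ((i : ℕ) + 3) * (1 / 2) ^ m := by
      calc (1 / 8 : ℝ) ^ m = (1 / 4) ^ m * (1 / 2) ^ m := by
            rw [← mul_pow]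
            norm_num
        _ ≤ (1 / 2) ^ ((i : ℕ) + 3) * (1 / 2) ^ m := by
            refine mul_le_mul_of_nonneg_right ?_ (by positivity)
            calc (1 / 4 : ℝ) ^ m ≤ (1 / 2) ^ m :=
                  pow_le_pow_left₀ (by norm_num) (by norm_num) m
              _ ≤ (1 / 2) ^ ((i : ℕ) + 3) :=
                  pow_le_pow_of_le_one (by norm_num) (by norm_num) hm64
    calc ee (PP a N i) (den (vv N i)) m ≤ (1 / 2) ^ ((i : ℕ) + 3) * (1 / 2) ^ m :=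
          h1.trans (h2.trans h5)
      _ ≤ _ := mul_le_mul_of_nonneg_left h3 (by positivity)
  sum := by
    have h1 : ∑ i : Fin (N - 6), ((1 : ℝ) / 2) ^ ((i : ℕ) + 3) =
        ∑ i ∈ range (N - 6), ((1 : ℝ) / 2) ^ (i + 3) :=
      Fin.sum_univ_eq_sum_range (fun i => ((1 : ℝ) / 2) ^ (i + 3)) (N - 6)
    rw [h1]
    have h2 : ∀ K : ℕ, ∑ i ∈ range K, ((1 : ℝ) / 2) ^ (i + 3) ≤ 1 / 4 - (1 / 2) ^ (K + 2) := by
      intro K
      induction K with
      | zero => norm_num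
      | succ K ih =>
        rw [Finset.sum_range_succ]
        have : (1 / 2 : ℝ) ^ (K + 1 + 2) = (1 / 2) ^ (K + 2) / 2 := by ring
        rw [this]
        have h3 : (1 / 2 : ℝ) ^ (K + 3) = (1 / 2) ^ (K + 2) / 2 := by ring
        linarith
    have h3 := h2 (N - 6)
    have h4 : (0 : ℝ) ≤ (1 / 2) ^ (N - 6 + 2) := by positivity
    linarith

theorem sum_two_pow (N : ℕ) (hN : 6 ≤ N) :
    ∑ i : Fin (N - 6), (2 : ℝ) ^ ((i : ℕ) + 6) ≤ 2 ^ N := by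
  have h1 : ∑ i : Fin (N - 6), (2 : ℝ) ^ ((i : ℕ) + 6) = ∑ i ∈ range (N - 6), (2 : ℝ) ^ (i + 6) :=
    Fin.sum_univ_eq_sum_range (fun i => (2 : ℝ) ^ (i + 6)) (N - 6)
  rw [h1]
  have h2 : ∀ K : ℕ, ∑ i ∈ range K, (2 : ℝ) ^ (i + 6) ≤ 2 ^ (K + 6) := by
    intro K
    induction K with
    | zero => simp
    | succ K ih =>
      rw [Finset.sum_range_succ]
      have : (2 : ℝ) ^ (K + 1 + 6) = 2 ^ (K + 6) + 2 ^ (K + 6) := by ring
      rw [this]
      linarith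
  have h3 := h2 (N - 6)
  have h4 : N - 6 + 6 = N := by omega
  rwa [h4] at h3

/-- the main term of the sieve -/
theorem VV_ge (a N : ℕ) (hN : 6 ≤ N) :
    (1 / 2 : ℝ) ^ (3 * (a + 9) * 2 ^ N) ≤ VV (PP a N) (vv N) := by
  have D := dat a N
  have h1 : ∏ i : Fin (N - 6), Real.exp (-(2 * (2 ^ ((i : ℕ) + 6) * (a + 9)))) ≤
      VV (PP a N) (vv N) := by
    refine Finset.prod_le_prod (fun i _ => (Real.exp_pos _).le) fun i _ => ?_
    refine le_trans (Real.exp_le_exp.2 ?_)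
      (pp_ge (fun p _ => D.den_nonneg i p) fun p hp => (den_vv_le hp).2)
    have := mu_le a N i
    linarith
  refine le_trans ?_ h1
  rw [← Real.exp_sum]
  have h2 : ∑ i : Fin (N - 6), -(2 * ((2 : ℝ) ^ ((i : ℕ) + 6) * (a + 9))) =
      -(2 * (a + 9) * ∑ i : Fin (N - 6), (2 : ℝ) ^ ((i : ℕ) + 6)) := by
    rw [Finset.sum_neg_distrib, Finset.mul_sum]
    congr 1
    exact Finset.sum_congr rfl fun i _ => by ring
  rw [h2]
  have h3 := sum_two_pow N hN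
  have h4 : (1 / 2 : ℝ) ^ (3 * (a + 9) * 2 ^ N) =
      Real.exp (-(3 * (a + 9) * 2 ^ N * Real.log 2)) := by
    have h5 : (1 / 2 : ℝ) = Real.exp (-Real.log 2) := by
      rw [Real.exp_neg, Real.exp_log (by norm_num)]
      norm_num
    rw [h5, ← Real.exp_nat_mul]
    congr 1
    push_cast
    ring
  rw [h4]
  refine Real.exp_le_exp.2 ?_
  have h6 : (0.69 : ℝ) < Real.log 2 := by linarith [Real.log_two_gt_d9]
  have h7 : (0 : ℝ) ≤ 2 * (a + 9) := by positivity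
  have h8 : 2 * ((a : ℝ) + 9) * ∑ i : Fin (N - 6), (2 : ℝ) ^ ((i : ℕ) + 6) ≤
      2 * (a + 9) * 2 ^ N := mul_le_mul_of_nonneg_left h3 h7
  have h9 : (0 : ℝ) ≤ (a + 9) * 2 ^ N := by positivity
  nlinarith

/-- the exponent of the error term -/
def Ex (a N : ℕ) : ℕ :=
  ∑ i : Fin (N - 6), ((i : ℕ) + 6 + 2 ^ (a * (N - ((i : ℕ) + 6)))) * (2 * bb a N i)

theorem err_le (a N : ℕ) : err (PP a N) (vv N) (bb a N) ≤ 2 ^ Ex a N := by
  have D := dat a N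
  unfold err Ex
  rw [← Finset.prod_pow_eq_pow_sum]
  refine Finset.prod_le_prod (fun i _ => pow_nonneg ?_ _) fun i _ => ?_
  · have := Finset.sum_nonneg fun p (_ : p ∈ PP a N i) => D.kap_nonneg i p
    linarith
  · rw [pow_mul (2 : ℝ)]
    refine pow_le_pow_left₀ ?_ ?_ _
    · have := Finset.sum_nonneg fun p (_ : p ∈ PP a N i) => D.kap_nonneg i p
      linarith
    · have h1 : ∑ p ∈ PP a N i, kap (vv N i) p ≤
          ∑ p ∈ PP a N i, (2 : ℝ) ^ ((i : ℕ) + 6) :=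
        Finset.sum_le_sum fun p hp => kap_vv_le i p (mem_PP.1 hp).1.pos
      rw [Finset.sum_const, nsmul_eq_mul] at h1
      have h2 : (PP a N i).card + 1 ≤ zz a (N - ((i : ℕ) + 6)) := by
        have h3 : PP a N i ⊆ Ioc 1 (zz a (N - ((i : ℕ) + 6))) := by
          intro p hp
          obtain ⟨h4, _, _, h5⟩ := mem_PP.1 hp
          exact mem_Ioc.2 ⟨h4.one_lt, h5⟩
        have h4 := Finset.card_le_card h3
        rw [Nat.card_Ioc] at h4
        have h5 := two_le_zz a (N - ((i : ℕ) + 6))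
        omega
      have h3 : ((PP a N i).card : ℝ) + 1 ≤ 2 ^ 2 ^ (a * (N - ((i : ℕ) + 6))) := by
        have : (((PP a N i).card + 1 : ℕ) : ℝ) ≤ ((zz a (N - ((i : ℕ) + 6)) : ℕ) : ℝ) := by
          exact_mod_cast h2
        unfold zz at this
        push_cast at this
        exact this
      have h4 : (1 : ℝ) ≤ 2 ^ ((i : ℕ) + 6) := one_le_pow₀ (by norm_num)
      rw [pow_add]
      calc 1 + ∑ p ∈ PP a N i, kap (vv N i) p
          ≤ 2 ^ ((i : ℕ) + 6) + (PP a N i).card * 2 ^ ((i : ℕ) + 6) := by linarith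
        _ = 2 ^ ((i : ℕ) + 6) * ((PP a N i).card + 1) := by ring
        _ ≤ _ := mul_le_mul_of_nonneg_left h3 (by positivity)

theorem num_a (a : ℕ) (ha : 4 ≤ a) : 2048 * (a + 9) ≤ 2 ^ (6 * (a - 1)) := by
  induction a, ha using Nat.le_induction with
  | base => norm_num
  | succ a ha ih =>
    have h1 : 6 * (a + 1 - 1) = 6 * (a - 1) + 6 := by omega
    rw [h1, pow_add]
    have h2 : 2048 * (a + 1 + 9) ≤ 2048 * (a + 9) * 2 ^ 6 := by
      norm_num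
      omega
    exact h2.trans (Nat.mul_le_mul_right _ ih)

theorem num_exp (a N : ℕ) (ha : 4 ≤ a) (j : ℕ) (hj : j < N - 6) :
    6 * (a - 1) + j + (a * (N - (j + 6)) + (j + 6)) ≤ a * N := by
  obtain ⟨c, rfl⟩ := Nat.exists_eq_add_of_le ha
  obtain ⟨M, rfl⟩ : ∃ M, N = j + 6 + M := Nat.exists_eq_add_of_le (by omega)
  have h5 : j + 6 + M - (j + 6) = M := by omega
  have h6 : 4 + c - 1 = 3 + c := by omega
  rw [h5, h6]
  nlinarith

theorem Ex_le (a N : ℕ) (ha : 4 ≤ a) (hN : 6 ≤ N)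
    (hbig : 1024 * ((a : ℝ) + 9) * N * 2 ^ N ≤ 2 ^ (a * N)) :
    (Ex a N : ℝ) ≤ 2 ^ (a * N) / 16 := by
  have h0 : (Ex a N : ℝ) = ∑ i : Fin (N - 6), 32 * ((a : ℝ) + 9) *
      ((((i : ℕ) : ℝ) + 6) * 2 ^ ((i : ℕ) + 6) +
        2 ^ (a * (N - ((i : ℕ) + 6))) * 2 ^ ((i : ℕ) + 6)) := by
    unfold Ex bb
    push_cast
    refine Finset.sum_congr rfl fun i _ => ?_
    ring
  have hK : (2048 * ((a : ℝ) + 9)) ≤ 2 ^ (6 * (a - 1)) := by exact_mod_cast num_a a ha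
  have h1 : ∀ i : Fin (N - 6), 32 * ((a : ℝ) + 9) *
      ((((i : ℕ) : ℝ) + 6) * 2 ^ ((i : ℕ) + 6) +
        2 ^ (a * (N - ((i : ℕ) + 6))) * 2 ^ ((i : ℕ) + 6)) ≤
      32 * ((a : ℝ) + 9) * (N * 2 ^ ((i : ℕ) + 6)) + 2 ^ (a * N) / 64 * (1 / 2) ^ (i : ℕ) := by
    intro i
    have hi := i.2
    have h2 : (((i : ℕ) : ℝ) + 6) ≤ N := by
      have : (i : ℕ) + 6 ≤ N := by omega
      exact_mod_cast this
    have h3 : (((i : ℕ) : ℝ) + 6) * 2 ^ ((i : ℕ) + 6) ≤ N * 2 ^ ((i : ℕ) + 6) :=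
      mul_le_mul_of_nonneg_right h2 (by positivity)
    have h4 : (2 : ℝ) ^ (6 * (a - 1)) * 2 ^ (i : ℕ) *
        (2 ^ (a * (N - ((i : ℕ) + 6))) * 2 ^ ((i : ℕ) + 6)) ≤ 2 ^ (a * N) := by
      rw [← pow_add, ← pow_add, ← pow_add]
      refine pow_le_pow_right₀ (by norm_num) ?_
      exact num_exp a N ha (i : ℕ) hi
    have h5 : 32 * ((a : ℝ) + 9) * (2 ^ (a * (N - ((i : ℕ) + 6))) * 2 ^ ((i : ℕ) + 6)) ≤
        2 ^ (a * N) / 64 * (1 / 2) ^ (i : ℕ) := by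
      set Y := (2 : ℝ) ^ (a * (N - ((i : ℕ) + 6))) * 2 ^ ((i : ℕ) + 6) with hY
      have hY0 : 0 ≤ Y := by positivity
      have h6 : (2048 * ((a : ℝ) + 9)) * (2 ^ (i : ℕ) * Y) ≤
          2 ^ (6 * (a - 1)) * (2 ^ (i : ℕ) * Y) :=
        mul_le_mul_of_nonneg_right hK (by positivity)
      have h7 : (2 : ℝ) ^ (i : ℕ) * (1 / 2) ^ (i : ℕ) = 1 := by
        rw [← mul_pow]
        norm_num
      have h8 : (2048 * ((a : ℝ) + 9)) * (2 ^ (i : ℕ) * Y) ≤ 2 ^ (a * N) := by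
        refine h6.trans ?_
        calc _ = (2 : ℝ) ^ (6 * (a - 1)) * 2 ^ (i : ℕ) * Y := by ring
          _ ≤ _ := h4
      have h9 := mul_le_mul_of_nonneg_right h8
        (show (0 : ℝ) ≤ (1 / 2) ^ (i : ℕ) / 64 by positivity)
      calc 32 * ((a : ℝ) + 9) * Y = 2048 * (a + 9) * Y / 64 * 1 := by ring
        _ = 2048 * (a + 9) * Y / 64 * (2 ^ (i : ℕ) * (1 / 2) ^ (i : ℕ)) := by rw [h7]
        _ = (2048 * ((a : ℝ) + 9)) * (2 ^ (i : ℕ) * Y) * ((1 / 2) ^ (i : ℕ) / 64) := by ring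
        _ ≤ _ := h9
        _ = _ := by ring
    have h10 : 32 * ((a : ℝ) + 9) * ((((i : ℕ) : ℝ) + 6) * 2 ^ ((i : ℕ) + 6)) ≤
        32 * ((a : ℝ) + 9) * (N * 2 ^ ((i : ℕ) + 6)) :=
      mul_le_mul_of_nonneg_left h3 (by positivity)
    calc _ = 32 * ((a : ℝ) + 9) * ((((i : ℕ) : ℝ) + 6) * 2 ^ ((i : ℕ) + 6)) +
          32 * ((a : ℝ) + 9) * (2 ^ (a * (N - ((i : ℕ) + 6))) * 2 ^ ((i : ℕ) + 6)) := by ring
      _ ≤ _ := add_le_add h10 h5
  rw [h0]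
  refine (Finset.sum_le_sum fun i _ => h1 i).trans ?_
  rw [Finset.sum_add_distrib, ← Finset.mul_sum, ← Finset.mul_sum, ← Finset.mul_sum]
  have h11 := sum_two_pow N hN
  have h12 : ∑ i : Fin (N - 6), ((1 : ℝ) / 2) ^ (i : ℕ) ≤ 2 := by
    have h13 : ∑ i : Fin (N - 6), ((1 : ℝ) / 2) ^ (i : ℕ) =
        ∑ i ∈ range (N - 6), ((1 : ℝ) / 2) ^ i :=
      Fin.sum_univ_eq_sum_range (fun i => ((1 : ℝ) / 2) ^ i) (N - 6)
    rw [h13]
    have h14 : ∀ K : ℕ, ∑ i ∈ range K, ((1 : ℝ) / 2) ^ i = 2 - 2 * (1 / 2) ^ K := by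
      intro K
      induction K with
      | zero => norm_num
      | succ K ih =>
        rw [Finset.sum_range_succ, ih]
        ring
    rw [h14]
    have : (0 : ℝ) ≤ (1 / 2) ^ (N - 6) := by positivity
    linarith
  have h15 : 32 * ((a : ℝ) + 9) * (N * ∑ i : Fin (N - 6), (2 : ℝ) ^ ((i : ℕ) + 6)) ≤
      32 * ((a : ℝ) + 9) * (N * 2 ^ N) :=
    mul_le_mul_of_nonneg_left (mul_le_mul_of_nonneg_left h11 (Nat.cast_nonneg _)) (by positivity)
  have h16 : (2 : ℝ) ^ (a * N) / 64 * ∑ i : Fin (N - 6), ((1 : ℝ) / 2) ^ (i : ℕ) ≤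
      2 ^ (a * N) / 64 * 2 := mul_le_mul_of_nonneg_left h12 (by positivity)
  linarith

end Pool.Agent.Helper73.OmegaSmall
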