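import Mathlib
import Pool.Agent.Helper73.OmegaSmall.Par

set_option autoImplicit false

/-!
The numbers `r_k` of allowed prime factors of medium size.
-/

namespace Pool.Agent.Helper73.OmegaSmall

open Finset

/-- a substitute for `log N` -/
def gg (N : ℕ) : ℕ := Nat.log 2 N + 1

/-- the number of allowed medium primes -/
def rr (a N k : ℕ) : ℕ :=
  1024 * (a + 9) * gg N * (Nat.clog 2 k / Nat.log 2 (Nat.clog 2 k))

/-- the level from which `n + k` is sifted -/
def lev (N k : ℕ) : ℕ := min N (max 6 (Nat.clog 2 k))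

theorem two_le_clog {k : ℕ} (hk : 3 ≤ k) : 2 ≤ Nat.clog 2 k := by
  have h := (Nat.lt_clog_iff_pow_lt (b := 2) (by norm_num) (x := k) (y := 1)).2 (by omega)
  omega

theorem div_log_ge {j : ℕ} (hj : 2 ≤ j) :
    1 ≤ j / Nat.log 2 j ∧ 1 ≤ Nat.log 2 j ∧ (j : ℝ) ≤ 2 * Nat.log 2 j * (j / Nat.log 2 j : ℕ) ∧
      ((j / Nat.log 2 j : ℕ) : ℝ) * Nat.log 2 j ≤ j := by
  have h1 : 1 ≤ Nat.log 2 j := Nat.log_pos (by norm_num) hj
  have h2 : Nat.log 2 j < j := Nat.log_lt_self 2 (by omega)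
  have h3 : 1 ≤ j / Nat.log 2 j := (Nat.one_le_div_iff (by omega)).2 h2.le
  set L := Nat.log 2 j with hL
  have h4 : j < L * (j / L) + L := by
    have := Nat.div_add_mod j L
    have h5 := Nat.mod_lt j (show 0 < L by omega)
    omega
  refine ⟨h3, h1, ?_, ?_⟩
  · have h5 : j ≤ 2 * L * (j / L) := by nlinarith
    exact_mod_cast h5
  · exact_mod_cast Nat.div_mul_le_self j L

theorem lev_le {N k : ℕ} (hN : 7 ≤ N) (hk : 3 ≤ k) :
    lev N k + 1 ≤ 4 * min N (Nat.clog 2 k) := by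
  have h1 := two_le_clog hk
  unfold lev
  omega

theorem rk_bound {a N k : ℕ} (hN : 7 ≤ N) (hk : 3 ≤ k) {T : ℝ} (hT0 : 0 ≤ T)
    (hT : T ≤ (a + 9) * ((lev N k : ℝ) + 1)) :
    (2 * T) ^ rr a N k / ((rr a N k).factorial : ℝ) ≤ (1 / 2) ^ (2 * Nat.clog 2 k + 4) := by
  have hj := two_le_clog hk
  set j := Nat.clog 2 k with hjd
  obtain ⟨d1, d2, d3, d4⟩ := div_log_ge hj
  set lam := Nat.log 2 j with hlam
  set q := j / lam with hq
  set r := rr a N k with hr
  have hrr : r = 1024 * (a + 9) * gg N * q := rfl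
  have hg1 : 1 ≤ gg N := by unfold gg; omega
  have hr0 : 0 < r := by
    rw [hrr]
    positivity
  have hrR : (r : ℝ) = 1024 * (a + 9) * gg N * q := by
    rw [hrr]
    push_cast
    ring
  have hr0' : (0 : ℝ) < r := by exact_mod_cast hr0
  have hjR : (2 : ℝ) ≤ j := by exact_mod_cast hj
  have hlamR : (1 : ℝ) ≤ lam := by exact_mod_cast d2
  have hgR : (1 : ℝ) ≤ gg N := by exact_mod_cast hg1
  have hqR : (1 : ℝ) ≤ q := by exact_mod_cast d1
  have ha9 : (9 : ℝ) ≤ (a : ℝ) + 9 := by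
    have : (0 : ℝ) ≤ a := Nat.cast_nonneg a
    linarith
  have hlev : ((lev N k : ℝ) + 1) ≤ 4 * (min N j : ℕ) := by
    exact_mod_cast lev_le hN hk
  -- `2T ≤ 8 (a+9) min(N,j)`
  have h2T : 2 * T ≤ 8 * (a + 9) * (min N j : ℕ) := by
    have := mul_le_mul_of_nonneg_left hlev (show (0 : ℝ) ≤ (a : ℝ) + 9 by linarith)
    linarith
  have hexp1 : Real.exp 1 ≤ 3 := by linarith [Real.exp_one_lt_d9]
  rcases Nat.lt_or_ge (N ^ 2) j with hcase | hcase
  · -- `j > N²`
    have hNj : (min N j : ℕ) ≤ N := min_le_left _ _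
    have hNsq : (N : ℝ) ≤ Real.sqrt j := by
      refine Real.le_sqrt_of_sq_le ?_
      exact_mod_cast hcase.le
    have hsq0 : 0 < Real.sqrt j := Real.sqrt_pos.2 (by linarith)
    have hsqsq : Real.sqrt j * Real.sqrt j = j := Real.mul_self_sqrt (by linarith)
    -- lower bound for `√j`
    have hpow : (2 : ℝ) ^ lam ≤ j := by
      have : 2 ^ lam ≤ j := Nat.pow_log_le_self 2 (by omega)
      exact_mod_cast this
    have hl2 : 0.69 < Real.log 2 := by linarith [Real.log_two_gt_d9]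
    have hl2' : Real.log 2 < 0.7 := by linarith [Real.log_two_lt_d9]
    set u := (lam : ℝ) * Real.log 2 / 4 with hu
    have hsqexp : Real.exp (2 * u) ≤ Real.sqrt j := by
      refine Real.le_sqrt_of_sq_le ?_
      rw [← Real.exp_nat_mul]
      have h1 : ((2 : ℕ) : ℝ) * (2 * u) = lam * Real.log 2 := by
        rw [hu]
        push_cast
        ring
      rw [h1, Real.exp_nat_mul, Real.exp_log (by norm_num)]
      exact hpow
    -- the ratio
    have hc : 2 * T ≤ ((lam : ℝ) / (64 * Real.sqrt j)) * r := by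
      have h1 : (j : ℝ) ≤ 2 * lam * q := d3
      have h2 : 8 * ((a : ℝ) + 9) * Real.sqrt j ≤ ((lam : ℝ) / (64 * Real.sqrt j)) * r := by
        rw [div_mul_eq_mul_div, le_div_iff₀ (by positivity), hrR]
        have h3 : 8 * ((a : ℝ) + 9) * Real.sqrt j * (64 * Real.sqrt j) =
            512 * (a + 9) * (Real.sqrt j * Real.sqrt j) := by ring
        rw [h3, hsqsq]
        have h4 : 512 * ((a : ℝ) + 9) * j ≤ 512 * (a + 9) * (2 * lam * q) :=
          mul_le_mul_of_nonneg_left h1 (by positivity)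
        have h5 : 1024 * ((a : ℝ) + 9) * lam * q * 1 ≤ 1024 * ((a : ℝ) + 9) * lam * q * gg N :=
          mul_le_mul_of_nonneg_left hgR (by positivity)
        linarith
      have h3 : ((min N j : ℕ) : ℝ) ≤ Real.sqrt j := by
        have : ((min N j : ℕ) : ℝ) ≤ N := by exact_mod_cast hNj
        linarith
      have h4 : 8 * ((a : ℝ) + 9) * (min N j : ℕ) ≤ 8 * (a + 9) * Real.sqrt j :=
        mul_le_mul_of_nonneg_left h3 (by positivity)
      linarith
    have h1 := pow_div_fact_le (by linarith : 0 ≤ 2 * T) hr0 hc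
    have h2 : Real.exp 1 * ((lam : ℝ) / (64 * Real.sqrt j)) ≤ Real.exp (-u) := by
      have h3 : (lam : ℝ) / 16 ≤ Real.exp u := by
        have h4 := Real.add_one_le_exp u
        have h5 : (lam : ℝ) * 0.69 / 4 ≤ u := by
          rw [hu]
          have := mul_le_mul_of_nonneg_left hl2.le (show (0 : ℝ) ≤ lam by linarith)
          linarith
        linarith
      have h4 : Real.exp u ≤ Real.exp (-u) * Real.sqrt j := by
        calc Real.exp u = Real.exp (-u) * Real.exp (2 * u) := by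
              rw [← Real.exp_add]
              congr 1
              ring
          _ ≤ _ := mul_le_mul_of_nonneg_left hsqexp (Real.exp_pos _).le
      rw [← mul_div_assoc, div_le_iff₀ (by positivity)]
      calc Real.exp 1 * (lam : ℝ) ≤ 3 * lam :=
            mul_le_mul_of_nonneg_right hexp1 (by linarith)
        _ ≤ 64 * ((lam : ℝ) / 16) := by linarith
        _ ≤ 64 * Real.exp u := by linarith
        _ ≤ 64 * (Real.exp (-u) * Real.sqrt j) := by linarith
        _ = Real.exp (-u) * (64 * Real.sqrt j) := by ring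
    have h3 : (Real.exp 1 * ((lam : ℝ) / (64 * Real.sqrt j))) ^ r ≤ Real.exp (-u) ^ r :=
      pow_le_pow_left₀ (by positivity) h2 r
    have h4 : Real.exp (-u) ^ r ≤ (1 / 2) ^ (2 * j + 4) := by
      have h5 : (1 / 2 : ℝ) = Real.exp (-Real.log 2) := by
        rw [Real.exp_neg, Real.exp_log (by norm_num)]
        norm_num
      rw [h5, ← Real.exp_nat_mul, ← Real.exp_nat_mul]
      refine Real.exp_le_exp.2 ?_
      have h6 : 4608 * (j : ℝ) ≤ r * lam := by
        rw [hrR]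
        have h7 : (9216 : ℝ) * (lam * q) ≤ 1024 * (a + 9) * gg N * q * lam := by
          have h8 : (9216 : ℝ) ≤ 1024 * (a + 9) * gg N := by nlinarith
          have h9 : (0 : ℝ) ≤ lam * q := by positivity
          have := mul_le_mul_of_nonneg_right h8 h9
          linarith
        have h8 : (j : ℝ) ≤ 2 * lam * q := d3
        linarith
      have h7 : (r : ℝ) * (-u) = -((r * lam) * (Real.log 2 / 4)) := by
        rw [hu]
        ring
      rw [h7]
      push_cast
      have h8 : (4608 * (j : ℝ)) * (Real.log 2 / 4) ≤ (r * lam) * (Real.log 2 / 4) :=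
        mul_le_mul_of_nonneg_right h6 (by linarith)
      nlinarith
    exact h1.trans (h3.trans h4)
  · -- `j ≤ N²`
    have hmin : ((min N j : ℕ) : ℝ) ≤ j := by exact_mod_cast min_le_right N j
    have hlg : lam ≤ 2 * gg N := by
      have h1 : N < 2 ^ (gg N) := by
        unfold gg
        exact Nat.lt_pow_succ_log_self (by norm_num) N
      have h2 : j < 2 ^ (2 * gg N) := by
        calc j ≤ N ^ 2 := hcase
          _ < (2 ^ (gg N)) ^ 2 := Nat.pow_lt_pow_left h1 (by norm_num)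
          _ = 2 ^ (2 * gg N) := by rw [← pow_mul, mul_comm]
      exact (Nat.log_lt_of_lt_pow (by omega) h2).le
    have hlgR : (lam : ℝ) ≤ 2 * gg N := by exact_mod_cast hlg
    have hrj : 256 * ((a : ℝ) + 9) * j ≤ r := by
      rw [hrR]
      have h1 : (j : ℝ) ≤ 2 * lam * q := d3
      have h2 : (2 : ℝ) * lam * q ≤ 2 * (2 * gg N) * q := by
        have := mul_le_mul_of_nonneg_right hlgR (show (0 : ℝ) ≤ q by linarith)
        linarith
      have h3 := mul_le_mul_of_nonneg_left (h1.trans h2) (show (0 : ℝ) ≤ 256 * (a + 9) by positivity)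
      linarith
    have hc : 2 * T ≤ (1 / 32) * r := by
      have h1 : 8 * ((a : ℝ) + 9) * (min N j : ℕ) ≤ 8 * (a + 9) * j :=
        mul_le_mul_of_nonneg_left hmin (by positivity)
      linarith
    have h1 := pow_div_fact_le (by linarith : 0 ≤ 2 * T) hr0 hc
    have h2 : (Real.exp 1 * (1 / 32)) ^ r ≤ (1 / 8) ^ r :=
      pow_le_pow_left₀ (by positivity) (by linarith) r
    have hjr : 2 * j + 4 ≤ r := by
      have h3 : (2 : ℝ) * j + 4 ≤ r := by nlinarith
      exact_mod_cast h3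
    have h3 : (1 / 8 : ℝ) ^ r ≤ (1 / 2) ^ (2 * j + 4) := by
      calc (1 / 8 : ℝ) ^ r ≤ (1 / 2) ^ r := pow_le_pow_left₀ (by norm_num) (by norm_num) r
        _ ≤ _ := pow_le_pow_of_le_one (by norm_num) (by norm_num) hjr
    exact h1.trans (h2.trans h3)

theorem half_pow_clog {k : ℕ} (hk : 3 ≤ k) :
    2 * ((1 / 2 : ℝ) ^ (2 * Nat.clog 2 k + 4)) ≤ 1 / 8 * (1 / (k : ℝ) ^ 2) := by
  have h1 : k ≤ 2 ^ Nat.clog 2 k := Nat.le_pow_clog (by norm_num) k
  have h2 : (k : ℝ) ≤ 2 ^ Nat.clog 2 k := by exact_mod_cast h1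
  have hk0 : (0 : ℝ) < k := by exact_mod_cast (by omega : 0 < k)
  have h3 : (k : ℝ) ^ 2 ≤ (2 ^ Nat.clog 2 k) ^ 2 := pow_le_pow_left₀ hk0.le h2 2
  have h4 : (1 / 2 : ℝ) ^ (2 * Nat.clog 2 k + 4) = 1 / (2 ^ Nat.clog 2 k) ^ 2 * (1 / 16) := by
    rw [pow_add, mul_comm 2 (Nat.clog 2 k), pow_mul, one_div_pow, one_div_pow]
    norm_num
  rw [h4]
  have h5 : 1 / ((2 : ℝ) ^ Nat.clog 2 k) ^ 2 ≤ 1 / (k : ℝ) ^ 2 :=
    one_div_le_one_div_of_le (by positivity) h3
  linarith

theorem sum_inv_sq (K : ℕ) : ∑ k ∈ Icc 3 K, 1 / (k : ℝ) ^ 2 ≤ 1 / 2 := by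
  have h : ∀ K : ℕ, 2 ≤ K → ∑ k ∈ Icc 3 K, 1 / (k : ℝ) ^ 2 ≤ (1 : ℝ) / 2 - 1 / (K : ℝ) := by
    intro K hK
    induction K, hK using Nat.le_induction with
    | base => simp
    | succ K hK ih =>
      rw [Finset.sum_Icc_succ_top (by omega)]
      have hK' : (2 : ℝ) ≤ K := by exact_mod_cast hK
      have h1 : 1 / (((K + 1 : ℕ) : ℝ)) ^ 2 ≤ 1 / (K : ℝ) - 1 / ((K + 1 : ℕ) : ℝ) := by
        push_cast
        rw [div_sub_div _ _ (by linarith) (by linarith), div_le_div_iff₀ (by positivity)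
          (by positivity)]
        nlinarith
      linarith
  rcases Nat.lt_or_ge K 2 with hK | hK
  · rw [Finset.Icc_eq_empty (by omega), Finset.sum_empty]
    norm_num
  · have h1 := h K hK
    have : (0 : ℝ) ≤ 1 / (K : ℝ) := by positivity
    linarith

theorem sum_bad {a N : ℕ} (hN : 7 ≤ N) (K : ℕ) (T : ℕ → ℝ) (hT0 : ∀ k ∈ Icc 3 K, 0 ≤ T k)
    (hT : ∀ k ∈ Icc 3 K, T k ≤ (a + 9) * ((lev N k : ℝ) + 1)) :
    ∑ k ∈ Icc 3 K, 2 * ((2 * T k) ^ rr a N k / ((rr a N k).factorial : ℝ)) ≤ 1 / 4 := by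
  have h1 : ∀ k ∈ Icc 3 K, 2 * ((2 * T k) ^ rr a N k / ((rr a N k).factorial : ℝ)) ≤
      1 / 8 * (1 / (k : ℝ) ^ 2) := by
    intro k hk
    have hk3 := (Finset.mem_Icc.1 hk).1
    have := rk_bound hN hk3 (hT0 k hk) (hT k hk)
    exact (mul_le_mul_of_nonneg_left this (by norm_num)).trans (half_pow_clog hk3)
  refine (Finset.sum_le_sum h1).trans ?_
  rw [← Finset.mul_sum]
  have := sum_inv_sq K
  linarith

end Pool.Agent.Helper73.OmegaSmall
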