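import Mathlib
import Pool.Agent.Helper73.OmegaSmall.Rk

set_option autoImplicit false

/-!
Assembly: many `n` such that all `ω(n+k)` are at most `C log N log k / log log k`.
-/

namespace Pool.Agent.Helper73.OmegaSmall

open Finset
open scoped ArithmeticFunction.omega
open Pool.Agent.Helper73.OmegaShift (hit)

/-- the relations between the parameters -/
structure Par (a N x : ℕ) : Prop where
  ha : 4 ≤ a
  hN : 7 ≤ N
  big : 1024 * (a + 9) * N * 2 ^ N ≤ 2 ^ (a * N)
  lo : zz a N ≤ x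
  hi : x < zz a (N + 1)

/-- bound for `k` in the first range -/
def KK (a N : ℕ) : ℕ := 2 ^ 2 ^ (a * N - 4)

variable {a N x : ℕ}

theorem Par.aN (P : Par a N x) : 28 ≤ a * N := by
  have h1 := P.ha
  have h2 := P.hN
  calc 28 = 4 * 7 := by norm_num
    _ ≤ a * N := Nat.mul_le_mul h1 h2

theorem Par.KK_pow (P : Par a N x) : KK a N ^ 16 = zz a N := by
  unfold KK zz
  rw [← pow_mul]
  have h := P.aN
  obtain ⟨c, hc⟩ := Nat.exists_eq_add_of_le (show 4 ≤ a * N by omega)
  rw [hc]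
  have h1 : 4 + c - 4 = c := by omega
  rw [h1, pow_add]
  congr 1
  norm_num
  ring

theorem Par.three_pow (P : Par a N x) : 3 ^ 16 ≤ x := by
  have h := P.aN
  have h1 : (32 : ℕ) ≤ 2 ^ (a * N) := by
    calc (32 : ℕ) = 2 ^ 5 := by norm_num
      _ ≤ 2 ^ (a * N) := Nat.pow_le_pow_right (by norm_num) (by omega)
  have h2 : (2 : ℕ) ^ 32 ≤ zz a N := Nat.pow_le_pow_right (by norm_num) h1
  have h3 : (3 : ℕ) ^ 16 ≤ 2 ^ 32 := by norm_num
  exact h3.trans (h2.trans P.lo)

theorem Par.x_pos (P : Par a N x) : 0 < x := by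
  have := P.three_pow
  omega

/-- the medium primes -/
def MM (a N x k : ℕ) : Finset ℕ :=
  (Ioc (max (ww N) (zz a (N - lev N k))) (zz a (N + 1))).filter
    fun p => p.Prime ∧ p ^ (16 * rr a N k) ≤ x

theorem mem_MM {k p : ℕ} : p ∈ MM a N x k ↔ ww N < p ∧ zz a (N - lev N k) < p ∧
    p ≤ zz a (N + 1) ∧ p.Prime ∧ p ^ (16 * rr a N k) ≤ x := by
  unfold MM
  rw [mem_filter, mem_Ioc, max_lt_iff]
  tauto

theorem Par.T_le (P : Par a N x) (k : ℕ) :
    ∑ p ∈ MM a N x k, 1 / (p : ℝ) ≤ (a + 9) * ((lev N k : ℝ) + 1) := by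
  have hN := P.hN
  have hl : lev N k ≤ N := min_le_left _ _
  have h1 := mass_zz a (ww N) (N - lev N k) (N + 1) (three_le_ww (by omega)) (by omega)
    (MM a N x k) (fun p hp => by
      obtain ⟨h1, h2, h3, h4, _⟩ := mem_MM.1 hp
      exact ⟨h4, max_lt h1 h2, h3⟩)
  rw [Nat.cast_sub hl] at h1
  push_cast at h1
  have h2 : (0 : ℝ) ≤ lev N k := Nat.cast_nonneg _
  linarith

theorem choose_le (n r : ℕ) : n.choose r ≤ n ^ r := by
  have h1 : ((n.choose r : ℕ) : ℝ) ≤ (n : ℝ) ^ r / (r.factorial : ℝ) := Nat.choose_le_pow_div r n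
  have h2 : (1 : ℝ) ≤ r.factorial := by exact_mod_cast Nat.factorial_pos r
  have h3 : (n : ℝ) ^ r / (r.factorial : ℝ) ≤ (n : ℝ) ^ r := div_le_self (by positivity) h2
  exact_mod_cast h1.trans h3

theorem Par.card_pow_le (P : Par a N x) (k : ℕ) :
    ((MM a N x k).powersetCard (rr a N k)).card ^ 16 ≤ x := by
  rw [card_powersetCard]
  rcases (MM a N x k).eq_empty_or_nonempty with h | h
  · rw [h, card_empty]
    have h1 : Nat.choose 0 (rr a N k) ≤ 1 := by
      rcases Nat.eq_zero_or_pos (rr a N k) with h2 | h2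
      · rw [h2]
        simp
      · rw [Nat.choose_eq_zero_of_lt h2]
        omega
    calc Nat.choose 0 (rr a N k) ^ 16 ≤ 1 ^ 16 := Nat.pow_le_pow_left h1 16
      _ ≤ x := by
        have := P.x_pos
        omega
  · set p := (MM a N x k).max' h with hp
    have hpm : p ∈ MM a N x k := Finset.max'_mem _ h
    have h1 : (MM a N x k).card ≤ p := by
      have h2 : MM a N x k ⊆ Ioc 0 p := by
        intro q hq
        rw [mem_Ioc]
        exact ⟨(mem_MM.1 hq).2.2.2.1.pos, Finset.le_max' _ q hq⟩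
      have h3 := Finset.card_le_card h2
      rwa [Nat.card_Ioc, Nat.sub_zero] at h3
    have h2 := choose_le (MM a N x k).card (rr a N k)
    calc _ ≤ ((MM a N x k).card ^ rr a N k) ^ 16 := Nat.pow_le_pow_left h2 16
      _ ≤ (p ^ rr a N k) ^ 16 := Nat.pow_le_pow_left (Nat.pow_le_pow_left h1 _) 16
      _ = p ^ (16 * rr a N k) := by rw [← pow_mul, mul_comm 16]
      _ ≤ x := (mem_MM.1 hpm).2.2.2.2

/-- small prime factors are absent -/
theorem Par.sift (P : Par a N x) {n k p : ℕ} (hv : ∀ i, ∀ p ∈ PP a N i, vv N i p n = 0)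
    (hk : 3 ≤ k) (hp : p.Prime) (hd : p ∣ n + k) (hw : ww N < p) :
    zz a (N - lev N k) < p := by
  classical
  by_contra hcon
  push Not at hcon
  have hN := P.hN
  have hw3 := three_le_ww (N := N) (by omega)
  have hex : ∃ e, p ≤ zz a e := ⟨_, hcon⟩
  set e := Nat.find hex with he
  have he1 : p ≤ zz a e := Nat.find_spec hex
  have he2 : e ≤ N - lev N k := Nat.find_min' hex hcon
  have he0 : 1 ≤ e := by
    by_contra h0
    have h1 : e = 0 := by omega
    rw [h1, zz_zero] at he1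
    omega
  have he3 : zz a (e - 1) < p := by
    by_contra h0
    push Not at h0
    have := Nat.find_min' hex h0
    omega
  have hl6 : 6 ≤ lev N k := by
    unfold lev
    omega
  have hi : N - e - 6 < N - 6 := by omega
  let i : Fin (N - 6) := ⟨N - e - 6, hi⟩
  have hiv : (i : ℕ) = N - e - 6 := rfl
  have hpi : p ∈ PP a N i := by
    rw [mem_PP, hiv]
    have e1 : N - (N - e - 6 + 7) = e - 1 := by omega
    have e2 : N - (N - e - 6 + 6) = e := by omega
    rw [e1, e2]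
    exact ⟨hp, hw, he3, he1⟩
  have h1 := hv i p hpi
  have h2 : hit (2 ^ ((i : ℕ) + 6) - 2) p n = 1 := by
    unfold hit
    rw [if_pos]
    refine ⟨k, ?_, hd⟩
    rw [mem_Icc]
    refine ⟨hk, ?_⟩
    have h3 : k ≤ 2 ^ Nat.clog 2 k := Nat.le_pow_clog (by norm_num) k
    have h4 : Nat.clog 2 k ≤ (i : ℕ) + 6 := by
      rw [hiv]
      unfold lev at he2
      omega
    have h5 : 2 ^ Nat.clog 2 k ≤ 2 ^ ((i : ℕ) + 6) := Nat.pow_le_pow_right (by norm_num) h4
    omega
  have h3 : hit (2 ^ ((i : ℕ) + 6) - 2) p n = 0 := h1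
  rw [h2] at h3
  norm_num at h3

theorem omega_eq (m : ℕ) : ω m = m.primeFactors.card := by
  rw [ArithmeticFunction.cardDistinctFactors_apply]
  rfl

/-- few large prime factors -/
theorem Par.large (P : Par a N x) {m r B : ℕ} (hm : 0 < m) (hmB : m ≤ x ^ B)
    (A : Finset ℕ) (hA : ∀ p ∈ A, p ∈ m.primeFactors ∧ x < p ^ (16 * r)) :
    A.card ≤ 16 * B * r := by
  have h1 : ∏ p ∈ A, p ∣ m :=
    (Finset.prod_dvd_prod_of_subset _ _ _ fun p hp => (hA p hp).1).trans
      (Nat.prod_primeFactors_dvd m)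
  have h2 : ∏ p ∈ A, p ≤ m := Nat.le_of_dvd hm h1
  have h3 : x ^ A.card ≤ ∏ p ∈ A, p ^ (16 * r) := by
    rw [← Finset.prod_const]
    exact Finset.prod_le_prod' fun p hp => (hA p hp).2.le
  rw [Finset.prod_pow] at h3
  have h4 : (∏ p ∈ A, p) ^ (16 * r) ≤ (x ^ B) ^ (16 * r) := Nat.pow_le_pow_left (h2.trans hmB) _
  rw [← pow_mul, show B * (16 * r) = 16 * B * r by ring] at h4
  have h6 : x ^ A.card ≤ x ^ (16 * B * r) := h3.trans h4
  have h7 := P.three_pow
  exact (Nat.pow_le_pow_iff_right (by omega)).1 h6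

theorem rr_pos (a N : ℕ) {k : ℕ} (hk : 3 ≤ k) : 0 < rr a N k := by
  have h1 := (div_log_ge (two_le_clog hk)).1
  unfold rr gg
  positivity

/-- first range of `k` -/
theorem Par.omega_le (P : Par a N x) {n k B : ℕ} (hn : n + k ≤ x ^ B)
    (hW : primorial (ww N) ∣ n)
    (hv : ∀ i, ∀ p ∈ PP a N i, vv N i p n = 0) (hk : 3 ≤ k)
    (hM : ((MM a N x k).filter fun p => p ∣ n + k).card < rr a N k) :
    ω (n + k) ≤ ω k + (16 * B + 1) * rr a N k := by
  classical
  rw [omega_eq, omega_eq]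
  set A := (n + k).primeFactors.filter fun p => x < p ^ (16 * rr a N k) with hA
  have hAc := P.large (m := n + k) (r := rr a N k) (B := B) (by omega) hn A
    (fun p hp => by
      rw [hA, mem_filter] at hp
      exact hp)
  have hsub : (n + k).primeFactors ⊆
      (k.primeFactors ∪ (MM a N x k).filter fun p => p ∣ n + k) ∪ A := by
    intro p hp
    have hpp := Nat.prime_of_mem_primeFactors hp
    have hpd := Nat.dvd_of_mem_primeFactors hp
    rw [mem_union, mem_union, mem_filter]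
    rcases Nat.lt_or_ge (ww N) p with hw | hw
    · by_cases hx : x < p ^ (16 * rr a N k)
      · right
        rw [hA, mem_filter]
        exact ⟨hp, hx⟩
      · left
        right
        push Not at hx
        have h1 := P.sift hv hk hpp hpd hw
        refine ⟨mem_MM.2 ⟨hw, h1, ?_, hpp, hx⟩, hpd⟩
        have h2 : p ^ 1 ≤ p ^ (16 * rr a N k) :=
          Nat.pow_le_pow_right hpp.pos (by have := rr_pos a N hk; omega)
        have h3 := P.hi
        rw [pow_one] at h2
        omega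
    · left
      left
      have h1 : p ∣ n := ((Nat.Prime.dvd_primorial_iff hpp).2 hw).trans hW
      have h2 : p ∣ k := (Nat.dvd_add_right h1).1 hpd
      exact Nat.mem_primeFactors.2 ⟨hpp, h2, by omega⟩
  have h1 := Finset.card_le_card hsub
  have h2 := Finset.card_union_le (k.primeFactors ∪ (MM a N x k).filter fun p => p ∣ n + k) A
  have h3 := Finset.card_union_le k.primeFactors ((MM a N x k).filter fun p => p ∣ n + k)
  have h4 : (16 * B + 1) * rr a N k = 16 * B * rr a N k + rr a N k := by ring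
  omega

theorem rr_log_le (a N : ℕ) {k : ℕ} (hk : 3 ≤ k) :
    (rr a N k : ℝ) * Real.log (Real.log k) ≤ 4096 * (a + 9) * gg N * Real.log k := by
  have hj := two_le_clog hk
  have hrr : rr a N k = 1024 * (a + 9) * gg N * (Nat.clog 2 k / Nat.log 2 (Nat.clog 2 k)) := rfl
  have hkc : k ≤ 2 ^ Nat.clog 2 k := Nat.le_pow_clog (by norm_num) k
  have hkp : 2 ^ (Nat.clog 2 k - 1) < k := Nat.pow_pred_clog_lt_self (by norm_num) (by omega)
  set j := Nat.clog 2 k with hjd
  obtain ⟨d1, d2, d3, d4⟩ := div_log_ge hj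
  have hj2 : j < 2 ^ (Nat.log 2 j + 1) := Nat.lt_pow_succ_log_self (by norm_num) j
  set lam := Nat.log 2 j with hlam
  set q := j / lam with hq
  have hrR : (rr a N k : ℝ) = 1024 * (a + 9) * gg N * q := by
    rw [hrr]
    push_cast
    ring
  have hk3 : (3 : ℝ) ≤ k := by exact_mod_cast hk
  have hℓ1 : (1.09 : ℝ) < Real.log k :=
    log_three_gt.trans_le (Real.log_le_log (by norm_num) hk3)
  have hl2 : 0.69 < Real.log 2 := by linarith [Real.log_two_gt_d9]
  have hl2' : Real.log 2 < 0.7 := by linarith [Real.log_two_lt_d9]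
  have hlamR : (1 : ℝ) ≤ lam := by exact_mod_cast d2
  have hqR : (1 : ℝ) ≤ q := by exact_mod_cast d1
  have hjR : (2 : ℝ) ≤ j := by exact_mod_cast hj
  have h1 : Real.log k ≤ j * Real.log 2 := by
    have h2 : (k : ℝ) ≤ 2 ^ j := by exact_mod_cast hkc
    have h3 := Real.log_le_log (by linarith) h2
    rwa [Real.log_pow] at h3
  have h2 : ((j : ℝ) - 1) * Real.log 2 ≤ Real.log k := by
    have h3 : ((2 : ℝ)) ^ (j - 1) ≤ k := by exact_mod_cast hkp.le
    have h4 := Real.log_le_log (by positivity) h3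
    rw [Real.log_pow, Nat.cast_sub (by omega)] at h4
    push_cast at h4
    exact h4
  have h3 : Real.log (Real.log k) ≤ 1.4 * lam := by
    have h4 : Real.log k ≤ 2 ^ (lam + 1) := by
      have h5 : (j : ℝ) ≤ 2 ^ (lam + 1) := by exact_mod_cast hj2.le
      nlinarith
    have h5 := Real.log_le_log (by linarith) h4
    rw [Real.log_pow] at h5
    push_cast at h5
    nlinarith
  have h4 : (q : ℝ) * Real.log (Real.log k) ≤ 1.4 * j := by
    have h5 := mul_le_mul_of_nonneg_left h3 (show (0 : ℝ) ≤ q by linarith)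
    have h6 : (q : ℝ) * lam ≤ j := d4
    linarith
  have h5 : 1.4 * (j : ℝ) ≤ 4 * Real.log k := by nlinarith
  have h6 : (0 : ℝ) ≤ 1024 * (a + 9) * gg N := by positivity
  rw [hrR]
  calc 1024 * ((a : ℝ) + 9) * gg N * q * Real.log (Real.log k)
      = 1024 * (a + 9) * gg N * (q * Real.log (Real.log k)) := by ring
    _ ≤ 1024 * (a + 9) * gg N * (4 * Real.log k) :=
        mul_le_mul_of_nonneg_left (h4.trans h5) h6
    _ = _ := by ring

/-- the constant -/
def CC (a B : ℕ) : ℕ := 4 * (2 ^ (a + 4) * B + 2) + (4096 * (16 * B + 1) + 1) * (a + 9)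

theorem one_le_gg (N : ℕ) : 1 ≤ gg N := by
  unfold gg
  omega

theorem Par.F_good (P : Par a N x) {n B : ℕ} (hn : n + x ≤ x ^ B)
    (hW : primorial (ww N) ∣ n) (hv : ∀ i, ∀ p ∈ PP a N i, vv N i p n = 0)
    (hM : ∀ k ∈ Icc 3 (KK a N), ((MM a N x k).filter fun p => p ∣ n + k).card < rr a N k) :
    N4a4fba6b.F n ≤ CC a B * gg N := by
  refine F_le (by positivity) fun k hk => ?_
  have hg : (1 : ℝ) ≤ gg N := by exact_mod_cast one_le_gg N
  have hk3 : (3 : ℝ) ≤ k := by exact_mod_cast hk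
  have hℓ1 : (1.09 : ℝ) < Real.log k :=
    log_three_gt.trans_le (Real.log_le_log (by norm_num) hk3)
  have hll : 0 ≤ Real.log (Real.log k) := Real.log_nonneg (by linarith)
  have hCC : ((CC a B : ℕ) : ℝ) = 4 * (2 ^ (a + 4) * B + 2) +
      (4096 * (16 * B + 1) + 1) * (a + 9) := by
    unfold CC
    push_cast
    ring
  have ha0 : (0 : ℝ) ≤ a := Nat.cast_nonneg a
  have hB0 : (0 : ℝ) ≤ B := Nat.cast_nonneg B
  have hx0 := P.x_pos
  have hKpow := P.KK_pow
  have hKpos : 0 < KK a N := by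
    unfold KK
    positivity
  rcases le_or_gt k (KK a N) with hkK | hkK
  · have hKx : KK a N ≤ x := by
      have h1 : KK a N ^ 1 ≤ KK a N ^ 16 := Nat.pow_le_pow_right hKpos (by norm_num)
      rw [pow_one, hKpow] at h1
      exact h1.trans P.lo
    have h1 := P.omega_le (n := n) (k := k) (B := B) (by omega) hW hv hk
      (hM k (mem_Icc.2 ⟨hk, hkK⟩))
    have h2 : ((ω (n + k) : ℕ) : ℝ) ≤ ω k + (16 * B + 1) * rr a N k := by exact_mod_cast h1
    have h3 := om_bound (m := k) (k := k) (by omega) hk (c := 2) le_rfl (by linarith)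
    have h4 := mul_le_mul_of_nonneg_left (rr_log_le a N hk)
      (show (0 : ℝ) ≤ 16 * B + 1 by linarith)
    have h5 := mul_le_mul_of_nonneg_right h2 hll
    have h6 : (8 : ℝ) * Real.log k ≤ (a + 9) * gg N * Real.log k := by
      refine mul_le_mul_of_nonneg_right ?_ (by linarith)
      nlinarith
    have h7 : (0 : ℝ) ≤ 4 * (2 ^ (a + 4) * B + 2) * gg N * Real.log k := by positivity
    rw [hCC]
    linarith
  · have hxz : Real.log x ≤ 2 ^ (a * (N + 1)) * Real.log 2 := by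
      rw [← log_zz]
      refine Real.log_le_log (by exact_mod_cast hx0) ?_
      exact_mod_cast P.hi.le
    have hkl : 2 ^ (a * N - 4) * Real.log 2 ≤ Real.log k := by
      have h1 : ((KK a N : ℕ) : ℝ) ≤ k := by exact_mod_cast hkK.le
      have h2 := Real.log_le_log (by exact_mod_cast hKpos) h1
      unfold KK at h2
      push_cast at h2
      rw [Real.log_pow] at h2
      push_cast at h2
      exact h2
    have haN := P.aN
    have e1 : a * (N + 1) = (a + 4) + (a * N - 4) := by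
      rw [mul_add, mul_one]
      omega
    have h1 : Real.log x ≤ 2 ^ (a + 4) * Real.log k := by
      rw [e1, pow_add, mul_assoc] at hxz
      exact hxz.trans (mul_le_mul_of_nonneg_left hkl (by positivity))
    have hx1 : (1 : ℝ) ≤ x := by exact_mod_cast hx0
    have h2 : Real.log ((n + k : ℕ) : ℝ) ≤ (2 ^ (a + 4) * B + 2) * Real.log k := by
      have h3 : ((n + k : ℕ) : ℝ) ≤ 2 * (x : ℝ) ^ B * k := by
        have h4 : (n : ℝ) ≤ (x : ℝ) ^ B := by
          have : n ≤ x ^ B := by omega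
          exact_mod_cast this
        have h5 : (1 : ℝ) ≤ (x : ℝ) ^ B := one_le_pow₀ hx1
        push_cast
        nlinarith
      have h4 : (0 : ℝ) < ((n + k : ℕ) : ℝ) := by
        push_cast
        have : (0 : ℝ) ≤ n := Nat.cast_nonneg n
        linarith
      have h5 := Real.log_le_log h4 h3
      rw [Real.log_mul (by positivity) (by positivity), Real.log_mul (by norm_num)
        (by positivity), Real.log_pow] at h5
      have h6 : Real.log 2 ≤ Real.log k := Real.log_le_log (by norm_num) (by linarith)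
      have h7 := mul_le_mul_of_nonneg_left h1 hB0
      linarith
    have h3 := om_bound (m := n + k) (k := k) (by omega) hk (c := 2 ^ (a + 4) * B + 2)
      (by have : (0 : ℝ) ≤ 2 ^ (a + 4) * B := by positivity
          linarith) h2
    refine h3.trans ?_
    refine mul_le_mul_of_nonneg_right ?_ (by linarith)
    rw [hCC]
    have h8 : (0 : ℝ) ≤ (4096 * (16 * B + 1) + 1) * (a + 9) := by positivity
    have h9 : (0 : ℝ) ≤ 4 * (2 ^ (a + 4) * B + 2) + (4096 * (16 * B + 1) + 1) * (a + 9) := by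
      positivity
    have h10 := mul_le_mul_of_nonneg_left hg h9
    linarith

theorem prod_ge (a N : ℕ) (hN : 6 ≤ N) :
    (1 / 2 : ℝ) ^ ((3 * a + 31) * 2 ^ N) ≤
      1 / (primorial (ww N) : ℝ) * VV (PP a N) (vv N) := by
  have h1 : ((primorial (ww N) : ℕ) : ℝ) ≤ 2 ^ (4 * 2 ^ N) := by
    have h2 := primorial_le_four_pow (ww N)
    have h3 : 4 ^ ww N = 2 ^ (4 * 2 ^ N) := by
      unfold ww
      rw [show (4 : ℕ) = 2 ^ 2 by norm_num, ← pow_mul]
      congr 1
      rw [pow_succ]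
      ring
    rw [h3] at h2
    exact_mod_cast h2
  have hp : (0 : ℝ) < (primorial (ww N) : ℕ) := by exact_mod_cast primorial_pos (ww N)
  have h2 : (1 / 2 : ℝ) ^ (4 * 2 ^ N) ≤ 1 / (primorial (ww N) : ℝ) := by
    rw [one_div_pow]
    exact one_div_le_one_div_of_le hp h1
  have h3 := VV_ge a N hN
  calc (1 / 2 : ℝ) ^ ((3 * a + 31) * 2 ^ N)
      = (1 / 2) ^ (4 * 2 ^ N) * (1 / 2) ^ (3 * (a + 9) * 2 ^ N) := by
        rw [← pow_add]
        congr 1
        ring
    _ ≤ _ := mul_le_mul h2 h3 (by positivity) (by positivity)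

/-- **Many good integers** in the interval `[X, X + x)`. -/
theorem Par.main (P : Par a N x) {X B : ℕ} (hX : X + x + x ≤ x ^ B) :
    (x : ℝ) * (1 / 2) ^ ((3 * a + 31) * 2 ^ N + 3) ≤
      (({n : ℕ | X ≤ n ∧ n < X + x ∧ N4a4fba6b.F n ≤ CC a B * gg N}.ncard : ℕ) : ℝ) := by
  classical
  have hN := P.hN
  have haN := P.aN
  have hx0 := P.x_pos
  have hKpow := P.KK_pow
  -- the sixteenth root
  obtain ⟨y, hy0, hy⟩ : ∃ y : ℝ, 0 ≤ y ∧ y ^ 16 = x :=
    ⟨(x : ℝ) ^ (((16 : ℕ) : ℝ)⁻¹), by positivity,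
      Real.rpow_inv_natCast_pow (Nat.cast_nonneg x) (by norm_num)⟩
  have hroot : ∀ c : ℕ, c ^ 16 ≤ x → (c : ℝ) ≤ y := by
    intro c hc
    have h1 : (c : ℝ) ^ 16 ≤ y ^ 16 := by
      rw [hy]
      exact_mod_cast hc
    exact le_of_pow_le_pow_left₀ (by norm_num) hy0 h1
  have hKy : ((KK a N : ℕ) : ℝ) ≤ y := hroot _ (by rw [hKpow]; exact P.lo)
  -- the finite set
  set E := (Ico X (X + x)).filter fun n => N4a4fba6b.F n ≤ CC a B * gg N with hE
  have hcard : {n : ℕ | X ≤ n ∧ n < X + x ∧ N4a4fba6b.F n ≤ CC a B * gg N}.ncard = E.card := by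
    rw [← Set.ncard_coe_finset E]
    congr 1
    ext n
    rw [Set.mem_ofPred_eq, Finset.mem_coe, hE, mem_filter, mem_Ico]
    tauto
  rw [hcard]
  have hT : ∀ k ∈ Icc 3 (KK a N), ∑ p ∈ MM a N x k, 1 / (p : ℝ) ≤
      (a + 9) * ((lev N k : ℝ) + 1) := fun k _ => P.T_le k
  have hc := count (dat a N) (small a N) (Icc 3 (KK a N)) (MM a N x) (rr a N)
    (fun k _ p hp => by
      obtain ⟨h1, _, _, h4, _⟩ := mem_MM.1 hp
      refine ⟨h4, ?_⟩
      unfold primorial
      refine Nat.Coprime.prod_left fun r hr => ?_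
      rw [mem_filter, mem_range] at hr
      exact (Nat.coprime_primes hr.2 h4).2 (by omega))
    (sum_bad hN (KK a N) (fun k => ∑ p ∈ MM a N x k, 1 / (p : ℝ))
      (fun k _ => Finset.sum_nonneg fun p _ => by positivity) hT)
    y (fun k _ => hroot _ (P.card_pow_le k)) X x E
    (fun n h1 h2 h3 h4 h5 => by
      rw [hE, mem_filter, mem_Ico]
      exact ⟨⟨h1, h2⟩, P.F_good (by omega) h3 h4 h5⟩)
  -- estimates
  have hprod := prod_ge a N (by omega)
  set Z := (3 * a + 31) * 2 ^ N with hZ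
  have hbigR : 1024 * ((a : ℝ) + 9) * N * 2 ^ N ≤ 2 ^ (a * N) := by exact_mod_cast P.big
  have hEx := Ex_le a N P.ha (by omega) hbigR
  have hErr := err_le a N
  have e16 : (2 : ℝ) ^ (a * N) = 16 * 2 ^ (a * N - 4) := by
    have h1 : a * N = 4 + (a * N - 4) := by omega
    calc (2 : ℝ) ^ (a * N) = 2 ^ (4 + (a * N - 4)) := by rw [← h1]
      _ = _ := by rw [pow_add]; norm_num
  have hExJ : Ex a N ≤ 2 ^ (a * N - 4) := by
    have h1 : (Ex a N : ℝ) ≤ 2 ^ (a * N - 4) := by
      rw [e16] at hEx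
      linarith
    exact_mod_cast h1
  have hErr2 : err (PP a N) (vv N) (bb a N) ≤ y := by
    refine hErr.trans (le_trans ?_ hKy)
    unfold KK
    push_cast
    exact pow_le_pow_right₀ (by norm_num) hExJ
  have hErr0 : 0 ≤ err (PP a N) (vv N) (bb a N) := (dat a N).err_nonneg _
  have hNJ : N ≤ 2 ^ (a * N - 4) ∧ Z + 3 ≤ 12 * 2 ^ (a * N - 4) := by
    have h1 : 64 * ((a : ℝ) + 9) * N * 2 ^ N ≤ 2 ^ (a * N - 4) := by
      rw [e16] at hbigR
      linarith
    have h2 : 64 * (a + 9) * N * 2 ^ N ≤ 2 ^ (a * N - 4) := by exact_mod_cast h1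
    have h3 : 1 ≤ 2 ^ N := Nat.one_le_two_pow
    have h4 : N * 1 ≤ 64 * (a + 9) * N * 2 ^ N := Nat.mul_le_mul (by nlinarith) h3
    have h5 : Z + 3 ≤ 64 * (a + 9) * N * 2 ^ N := by
      rw [hZ]
      have h6 : (3 * a + 31) * 2 ^ N + 3 ≤ (3 * a + 34) * 2 ^ N := by nlinarith
      have h7 : (3 * a + 34) ≤ 64 * (a + 9) * N := by nlinarith
      exact h6.trans (Nat.mul_le_mul_right _ h7)
    constructor
    · omega
    · omega
  have hKy2 : (2 : ℝ) ^ 2 ^ (a * N - 4) ≤ y := by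
    unfold KK at hKy
    push_cast at hKy
    exact hKy
  have hNy : (N : ℝ) ≤ y := by
    refine le_trans ?_ hKy2
    have h1 : N < 2 ^ N := Nat.lt_two_pow_self
    have h2 : 2 ^ N ≤ 2 ^ 2 ^ (a * N - 4) := Nat.pow_le_pow_right (by norm_num) hNJ.1
    exact_mod_cast (h1.le.trans h2)
  have hy2 : (2 : ℝ) ≤ y := by
    have : (7 : ℝ) ≤ N := by exact_mod_cast hN
    linarith
  have hy12 : (2 : ℝ) ^ (Z + 3) ≤ y ^ 12 := by
    calc (2 : ℝ) ^ (Z + 3) ≤ 2 ^ (12 * 2 ^ (a * N - 4)) :=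
          pow_le_pow_right₀ (by norm_num) hNJ.2
      _ = (2 ^ 2 ^ (a * N - 4)) ^ 12 := by rw [mul_comm 12, pow_mul]
      _ ≤ y ^ 12 := pow_le_pow_left₀ (by positivity) hKy2 12
  have hfin : ((Fintype.card (Fin (N - 6)) : ℕ) : ℝ) + 1 ≤ y := by
    rw [Fintype.card_fin]
    have h1 : ((N - 6 : ℕ) : ℝ) + 1 ≤ N := by
      have : N - 6 + 1 ≤ N := by omega
      exact_mod_cast this
    linarith
  have hKc : (((Icc 3 (KK a N)).card : ℕ) : ℝ) ≤ y := by
    refine le_trans ?_ hKy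
    have : (Icc 3 (KK a N)).card ≤ KK a N := by
      rw [Nat.card_Icc]
      omega
    exact_mod_cast this
  have herr : (((Fintype.card (Fin (N - 6)) : ℕ) : ℝ) + 1 + ((Icc 3 (KK a N)).card : ℕ) * y) *
      err (PP a N) (vv N) (bb a N) ≤ y ^ 4 := by
    have h1 : ((Fintype.card (Fin (N - 6)) : ℕ) : ℝ) + 1 + ((Icc 3 (KK a N)).card : ℕ) * y ≤
        y + y * y := add_le_add hfin (mul_le_mul_of_nonneg_right hKc hy0)
    have h2 : (0 : ℝ) ≤ y ^ 2 := by positivity
    have h3 : y + y * y ≤ 2 * y ^ 2 := by nlinarith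
    have h4 : 2 * y ^ 2 ≤ y * y ^ 2 := mul_le_mul_of_nonneg_right hy2 h2
    calc _ ≤ (y + y * y) * y := mul_le_mul h1 hErr2 hErr0 (by positivity)
      _ ≤ (y * y ^ 2) * y := mul_le_mul_of_nonneg_right (h3.trans h4) hy0
      _ = y ^ 4 := by ring
  have hmain : y ^ 4 ≤ (x : ℝ) * (1 / 2) ^ (Z + 3) := by
    have h1 : (0 : ℝ) ≤ (1 / 2) ^ (Z + 3) := by positivity
    have h2 : (2 : ℝ) ^ (Z + 3) * (1 / 2) ^ (Z + 3) = 1 := by
      rw [← mul_pow]
      norm_num
    have h3 : 1 ≤ y ^ 12 * (1 / 2) ^ (Z + 3) := by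
      calc (1 : ℝ) = (2 : ℝ) ^ (Z + 3) * (1 / 2) ^ (Z + 3) := h2.symm
        _ ≤ _ := mul_le_mul_of_nonneg_right hy12 h1
    have h4 : (0 : ℝ) ≤ y ^ 4 := by positivity
    calc y ^ 4 = y ^ 4 * 1 := (mul_one _).symm
      _ ≤ y ^ 4 * (y ^ 12 * (1 / 2) ^ (Z + 3)) := mul_le_mul_of_nonneg_left h3 h4
      _ = y ^ 16 * (1 / 2) ^ (Z + 3) := by ring
      _ = _ := by rw [hy]
  have hx' : (0 : ℝ) ≤ x := Nat.cast_nonneg x
  have h1 := mul_le_mul_of_nonneg_left hprod hx'
  have h2 : (x : ℝ) * (1 / 2) ^ (Z + 3) = x * (1 / 2) ^ Z / 8 := by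
    rw [pow_add]
    ring
  linarith

end Pool.Agent.Helper73.OmegaSmall
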