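import Mathlib
import Pool.Agent.Helper73.OmegaSmall.Fin

set_option autoImplicit false

/-!
The final form of the theorem.
-/

namespace Pool.Agent.Helper73.OmegaSmall

theorem exists_par (a : ℕ) (ha : 4 ≤ a) {x : ℕ} (hx : zz a (1024 * (a + 9)) ≤ x) :
    ∃ N, 1024 * (a + 9) ≤ N ∧ Par a N x := by
  have hx0 : x ≠ 0 := by
    have := two_le_zz a (1024 * (a + 9))
    omega
  have hL1 : 2 ^ (a * (1024 * (a + 9))) ≤ Nat.log 2 x := Nat.le_log_of_pow_le (by norm_num) hx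
  have hL0 : Nat.log 2 x ≠ 0 := by
    have : 1 ≤ 2 ^ (a * (1024 * (a + 9))) := Nat.one_le_two_pow
    omega
  have hM1 : a * (1024 * (a + 9)) ≤ Nat.log 2 (Nat.log 2 x) :=
    Nat.le_log_of_pow_le (by norm_num) hL1
  have hN0 : 1024 * (a + 9) ≤ Nat.log 2 (Nat.log 2 x) / a := by
    rw [Nat.le_div_iff_mul_le (by omega)]
    rw [mul_comm]
    exact hM1
  set N := Nat.log 2 (Nat.log 2 x) / a with hN
  have hlt : Nat.log 2 (Nat.log 2 x) < a * (N + 1) :=
    Nat.lt_mul_div_succ _ (by omega)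
  have hle : a * N ≤ Nat.log 2 (Nat.log 2 x) := Nat.mul_div_le _ _
  refine ⟨N, hN0, ha, by omega, ?_, ?_, ?_⟩
  · have h1 : N ≤ 2 ^ N := Nat.lt_two_pow_self.le
    have h2 : 1024 * (a + 9) ≤ 2 ^ N := hN0.trans h1
    calc 1024 * (a + 9) * N * 2 ^ N ≤ 2 ^ N * 2 ^ N * 2 ^ N :=
          Nat.mul_le_mul_right _ (Nat.mul_le_mul h2 h1)
      _ = 2 ^ (3 * N) := by
          rw [← pow_add, ← pow_add]
          congr 1
          ring
      _ ≤ 2 ^ (a * N) := Nat.pow_le_pow_right (by norm_num) (Nat.mul_le_mul_right _ (by omega))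
  · have h1 : 2 ^ (a * N) ≤ Nat.log 2 x :=
      (Nat.pow_le_pow_right (by norm_num) hle).trans (Nat.pow_log_le_self 2 hL0)
    exact (Nat.pow_le_pow_right (by norm_num) h1).trans (Nat.pow_log_le_self 2 hx0)
  · have h1 : Nat.log 2 x < 2 ^ (Nat.log 2 (Nat.log 2 x) + 1) :=
      Nat.lt_pow_succ_log_self (by norm_num) _
    have h2 : 2 ^ (Nat.log 2 (Nat.log 2 x) + 1) ≤ 2 ^ (a * (N + 1)) :=
      Nat.pow_le_pow_right (by norm_num) hlt
    have h3 : x < 2 ^ (Nat.log 2 x + 1) := Nat.lt_pow_succ_log_self (by norm_num) _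
    exact h3.trans_le (Nat.pow_le_pow_right (by norm_num) (by omega))

theorem gg_le {N : ℕ} (hN : 7 ≤ N) : (gg N : ℝ) ≤ 3 * Real.log N := by
  have hl2 : 0.69 < Real.log 2 := by linarith [Real.log_two_gt_d9]
  have h1 : 2 ^ Nat.log 2 N ≤ N := Nat.pow_log_le_self 2 (by omega)
  have h2 : (2 : ℝ) ^ Nat.log 2 N ≤ N := by exact_mod_cast h1
  have h3 := Real.log_le_log (by positivity) h2
  rw [Real.log_pow] at h3
  have h4 : Real.log 2 ≤ Real.log N := by
    refine Real.log_le_log (by norm_num) ?_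
    have : 2 ≤ N := by omega
    exact_mod_cast this
  have h5 : (0 : ℝ) ≤ (Nat.log 2 N : ℕ) := Nat.cast_nonneg _
  have h6 : ((Nat.log 2 N : ℕ) : ℝ) * 0.69 ≤ Real.log N :=
    (mul_le_mul_of_nonneg_left hl2.le h5).trans h3
  unfold gg
  push_cast
  linarith

theorem logloglog_ge {a N n : ℕ} (ha : 4 ≤ a) (hN : 7 ≤ N) (hn : zz a N ≤ n) :
    Real.log N ≤ Real.log (Real.log (Real.log n)) := by
  have hl2 : 0.69 < Real.log 2 := by linarith [Real.log_two_gt_d9]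
  have hz : (2 : ℝ) ≤ zz a N := by exact_mod_cast two_le_zz a N
  have hlz : 0 < Real.log (zz a N : ℝ) := Real.log_pos (by linarith)
  have h1 : Real.log (zz a N) ≤ Real.log n :=
    Real.log_le_log (by linarith) (by exact_mod_cast hn)
  have h2 : Real.log (Real.log (zz a N)) ≤ Real.log (Real.log n) := Real.log_le_log hlz h1
  rw [loglog_zz] at h2
  have h3 : -0.45 ≤ Real.log (Real.log 2) := by
    have h4 := Real.one_sub_inv_le_log_of_pos (show 0 < Real.log 2 by linarith)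
    have h5 : (Real.log 2)⁻¹ ≤ 1.45 := by
      rw [inv_le_comm₀ (by linarith) (by norm_num)]
      refine le_trans ?_ hl2.le
      norm_num
    linarith
  have haR : (4 : ℝ) ≤ a := by exact_mod_cast ha
  have hNR : (7 : ℝ) ≤ N := by exact_mod_cast hN
  have h4 : (4 : ℝ) * N * 0.69 ≤ a * N * Real.log 2 := by
    have h5 : (4 : ℝ) * N ≤ a * N := mul_le_mul_of_nonneg_right haR (by linarith)
    exact mul_le_mul h5 hl2.le (by norm_num) (by positivity)
  refine Real.log_le_log (by linarith) ?_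
  linarith

theorem expo {ε : ℝ} (h0 : 0 < ε) {a N x : ℕ} (P : Par a N x) (hN0 : 1024 * (a + 9) ≤ N)
    (haε : 2 ≤ ((a : ℝ) - 1) * ε) :
    Real.exp (-(Real.log x) ^ ε) ≤ (1 / 2) ^ ((3 * a + 31) * 2 ^ N + 3) := by
  have hl2 : 0.69 < Real.log 2 := by linarith [Real.log_two_gt_d9]
  have hl2' : Real.log 2 < 0.7 := by linarith [Real.log_two_lt_d9]
  have haN := P.aN
  have hN := P.hN
  have hx0 : (0 : ℝ) < x := by exact_mod_cast P.x_pos
  have hz : (2 : ℝ) ≤ zz a N := by exact_mod_cast two_le_zz a N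
  have h1 : (2 : ℝ) ^ (a * N - 1) ≤ Real.log x := by
    have h2 : Real.log (zz a N) ≤ Real.log x :=
      Real.log_le_log (by linarith) (by exact_mod_cast P.lo)
    rw [log_zz] at h2
    have h3 : (2 : ℝ) ^ (a * N) = 2 ^ (a * N - 1) * 2 := by
      have h4 : a * N = a * N - 1 + 1 := by omega
      calc (2 : ℝ) ^ (a * N) = 2 ^ (a * N - 1 + 1) := by rw [← h4]
        _ = _ := pow_succ _ _
    rw [h3] at h2
    have h5 : (0 : ℝ) < 2 ^ (a * N - 1) := by positivity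
    nlinarith
  have h2 : (2 : ℝ) ^ (2 * N) ≤ (Real.log x) ^ ε := by
    have h3 : ((2 : ℝ) ^ (a * N - 1)) ^ ε ≤ (Real.log x) ^ ε :=
      Real.rpow_le_rpow (by positivity) h1 h0.le
    refine le_trans ?_ h3
    rw [← Real.rpow_natCast, ← Real.rpow_natCast, ← Real.rpow_mul (by norm_num)]
    refine Real.rpow_le_rpow_of_exponent_le (by norm_num) ?_
    have h4 : (((a * N - 1 : ℕ)) : ℝ) = a * N - 1 := by
      rw [Nat.cast_sub (by omega)]
      push_cast
      ring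
    rw [h4]
    push_cast
    have hNR : (7 : ℝ) ≤ N := by exact_mod_cast hN
    have h5 : ((a : ℝ) - 1) * N ≤ a * N - 1 := by linarith
    have h6 : ((a : ℝ) - 1) * N * ε ≤ (a * N - 1) * ε := mul_le_mul_of_nonneg_right h5 h0.le
    have h7 : 2 * (N : ℝ) ≤ ((a : ℝ) - 1) * ε * N :=
      mul_le_mul_of_nonneg_right haε (by linarith)
    linarith
  have h3 : (((3 * a + 31) * 2 ^ N + 3 : ℕ) : ℝ) ≤ 2 ^ (2 * N) := by
    have h4 : (3 * a + 31) * 2 ^ N + 3 ≤ 2 ^ (2 * N) := by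
      have h5 : N < 2 ^ N := Nat.lt_two_pow_self
      have h6 : 1 ≤ 2 ^ N := Nat.one_le_two_pow
      calc (3 * a + 31) * 2 ^ N + 3 ≤ (3 * a + 34) * 2 ^ N := by nlinarith
        _ ≤ 2 ^ N * 2 ^ N := Nat.mul_le_mul_right _ (by omega)
        _ = 2 ^ (2 * N) := by
          rw [← pow_add]
          congr 1
          ring
    exact_mod_cast h4
  have h5 : (1 / 2 : ℝ) = Real.exp (-Real.log 2) := by
    rw [Real.exp_neg, Real.exp_log (by norm_num)]
    norm_num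
  rw [h5, ← Real.exp_nat_mul]
  refine Real.exp_le_exp.2 ?_
  have h6 : (0 : ℝ) ≤ (((3 * a + 31) * 2 ^ N + 3 : ℕ) : ℝ) := Nat.cast_nonneg _
  nlinarith

/-- **Main theorem.** -/
theorem main (A : ℕ) (ε : ℝ) (h0 : 0 < ε) : ∃ C : ℝ, ∃ H₀ : ℕ, ∀ H : ℕ, H₀ ≤ H →
    ∀ x : ℕ, x ≤ H ^ A →
    (H : ℝ) * Real.exp (-(Real.log H) ^ ε) ≤
      (({n : ℕ | x ≤ n ∧ n < x + H ∧
        N4a4fba6b.F n ≤ C * Real.log (Real.log (Real.log H))}.ncard : ℕ) : ℝ) := by
  obtain ⟨m, hm⟩ := exists_nat_ge (2 / ε)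
  have ha : 4 ≤ m + 4 := by omega
  have haε : 2 ≤ (((m + 4 : ℕ) : ℝ) - 1) * ε := by
    rw [div_le_iff₀ h0] at hm
    push_cast
    nlinarith
  set a := m + 4 with had
  refine ⟨3 * CC a (A + 2), zz a (1024 * (a + 9)), fun H hH x hx => ?_⟩
  obtain ⟨N, hN0, P⟩ := exists_par a ha hH
  have hN := P.hN
  have hH3 := P.three_pow
  have hX : x + H + H ≤ H ^ (A + 2) := by
    have h1 : 1 ≤ H ^ A := Nat.one_le_pow _ _ P.x_pos
    have h2 : x + H + H ≤ H ^ A * (3 * H) := by nlinarith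
    have h3 : H ^ A * (3 * H) ≤ H ^ A * H ^ 2 := by
      refine Nat.mul_le_mul_left _ ?_
      rw [pow_two]
      exact Nat.mul_le_mul_right _ (by omega)
    rw [pow_add]
    exact h2.trans h3
  have h1 := P.main hX
  have h2 := expo h0 P hN0 haε
  have h3 := mul_le_mul_of_nonneg_left h2 (Nat.cast_nonneg H : (0 : ℝ) ≤ H)
  refine h3.trans (h1.trans ?_)
  have h4 : {n : ℕ | x ≤ n ∧ n < x + H ∧ N4a4fba6b.F n ≤ CC a (A + 2) * gg N} ⊆
      {n : ℕ | x ≤ n ∧ n < x + H ∧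
        N4a4fba6b.F n ≤ 3 * CC a (A + 2) * Real.log (Real.log (Real.log H))} := by
    intro n hn
    rw [Set.mem_ofPred_eq] at hn ⊢
    obtain ⟨hn1, hn2, hn3⟩ := hn
    refine ⟨hn1, hn2, hn3.trans ?_⟩
    have h5 := gg_le hN
    have h6 := logloglog_ge ha hN P.lo
    have h7 : (0 : ℝ) ≤ (CC a (A + 2) : ℕ) := Nat.cast_nonneg _
    have h8 := mul_le_mul_of_nonneg_left (h5.trans
      (mul_le_mul_of_nonneg_left h6 (by norm_num : (0 : ℝ) ≤ 3))) h7
    linarith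
  have h5 : {n : ℕ | x ≤ n ∧ n < x + H ∧
        N4a4fba6b.F n ≤ 3 * CC a (A + 2) * Real.log (Real.log (Real.log H))}.Finite :=
    (Set.finite_Iio (x + H)).subset fun n hn => by
      rw [Set.mem_ofPred_eq] at hn
      exact hn.2.1
  exact_mod_cast Set.ncard_le_ncard h4 h5

end Pool.Agent.Helper73.OmegaSmall
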